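import Pool.Agent.Helper8K9.UD.Loc

/-!
# All conclusions at one prime
-/

set_option autoImplicit false
set_option linter.unusedSectionVars false

namespace Pool.Agent.Helper8K9.UD

open Module TensorProduct Matrix Polynomial Filter Topology NumberField IsDedekindDomain
open Pool.Agent.H204R3.SP Pool.Agent.H204R3.GP Pool.Agent.Helper8K9.CD Pool.Agent.Helper8K9.CR
open Pool.Agent.Y142.ZO Pool.Agent.Y142.ZI Pool.Agent.Y142.ZS Pool.Agent.Y142.SU Pool.Agent.Y142.SI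

noncomputable section

section transfer

variable {E : Type} [Field E] [NumberField E] {A B : Type} [Field A] [CharZero A] [IsAlgClosed A]
  [Field B] [CharZero B] [IsAlgClosed B] {bar : E →+* E}

theorem comp_bijective (j : A →+* B) :
    Function.Bijective fun τ : E →+* A => j.comp τ := by
  classical
  have hinj : Function.Injective fun τ : E →+* A => j.comp τ := by
    intro τ τ' h
    ext a
    exact j.injective (congrArg (fun f : E →+* B => f a) h)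
  exact (Fintype.bijective_iff_injective_and_card _).2 ⟨hinj, by
    rw [NumberField.Embeddings.card, NumberField.Embeddings.card]⟩

theorem nondeg_up (j : A →+* B) {q : A} {D : E} (h : NondegenerateDet A bar q D) :
    NondegenerateDet B bar (j q) D := by
  intro w r hw hprod τ
  let e := Equiv.ofBijective _ (comp_bijective (E := E) j)
  have he : ∀ τ : E →+* A, e τ = j.comp τ := fun _ => rfl
  have h1 := h (fun τ => w (e τ)) r (fun τ => by
    have h2 : e (τ.comp bar) = (e τ).comp bar := rfl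
    change w (e (τ.comp bar)) = -w (e τ)
    rw [h2, hw]) (by
    apply j.injective
    rw [map_prod, map_zpow₀, ← hprod, ← Equiv.prod_comp e]
    refine Finset.prod_congr rfl fun τ _ => ?_
    rw [map_zpow₀]
    rfl)
  have h2 := h1 (e.symm τ)
  rwa [Equiv.apply_symm_apply] at h2

theorem nondeg_down (j : A →+* B) {q : A} {D : E} (h : NondegenerateDet B bar (j q) D) :
    NondegenerateDet A bar q D := by
  intro w r hw hprod τ
  let e := Equiv.ofBijective _ (comp_bijective (E := E) j)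
  have he : ∀ τ : E →+* A, e τ = j.comp τ := fun _ => rfl
  have hes : ∀ τ : E →+* B, e.symm (τ.comp bar) = (e.symm τ).comp bar := by
    intro τ
    rw [Equiv.symm_apply_eq]
    have h2 : e ((e.symm τ).comp bar) = (e (e.symm τ)).comp bar := rfl
    rw [h2, Equiv.apply_symm_apply]
  have h1 := h (fun τ => w (e.symm τ)) r (fun τ => by
    rw [hes, hw]) (by
    rw [← map_zpow₀, ← hprod, map_prod, ← Equiv.prod_comp e]
    refine Finset.prod_congr rfl fun τ _ => ?_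
    rw [Equiv.symm_apply_apply, map_zpow₀]
    rfl)
  have h2 := h1 (e τ)
  rwa [Equiv.symm_apply_apply] at h2

/-- The condition on the determinant can be read over the complex numbers. -/
theorem nondeg_of_complex (ℓ : ℕ) [Fact ℓ.Prime] {q : ℚ} {D : E}
    (h : NondegenerateDet ℂ bar (q : ℂ) D) :
    NondegenerateDet (AlgebraicClosure ℚ_[ℓ]) bar (q : AlgebraicClosure ℚ_[ℓ]) D := by
  obtain ⟨j1⟩ := nonempty_LC
  obtain ⟨j2⟩ := emb ℓ
  have h1 : NondegenerateDet (AlgebraicClosure ℚ) bar (q : AlgebraicClosure ℚ) D := by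
    refine nondeg_down j1 ?_
    rwa [map_ratCast]
  have h2 := nondeg_up j2 h1
  rwa [map_ratCast] at h2

end transfer

variable {ℓ : ℕ} [Fact ℓ.Prime] {N : ℕ} {Γ : Type} [Group Γ] [TopologicalSpace Γ]
  [IsTopologicalGroup Γ] [CompactSpace Γ]

theorem mem_span_op {E : Type} [Field E] (ε : E →+* Matrix (Fin N) (Fin N) ℚ_[ℓ])
    {P : Module.End ℚ_[ℓ] (Fin N → ℚ_[ℓ])}
    (hP : LinearMap.toMatrix' P ∈ Submodule.span ℚ_[ℓ] (Set.range ε)) :
    P ∈ Submodule.span ℚ_[ℓ] (Set.range (opOf ε)) := by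
  have h2 : ∀ X ∈ Submodule.span ℚ_[ℓ] (Set.range ε),
      Matrix.toLin' X ∈ Submodule.span ℚ_[ℓ] (Set.range (opOf ε)) := by
    intro X hX
    induction hX using Submodule.span_induction with
    | mem x hx =>
      obtain ⟨a, rfl⟩ := hx
      exact Submodule.subset_span ⟨a, rfl⟩
    | zero => rw [map_zero]; exact Submodule.zero_mem _
    | add x y _ _ hx hy => rw [map_add]; exact Submodule.add_mem _ hx hy
    | smul c x _ hx => rw [map_smul]; exact Submodule.smul_mem _ _ hx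
  have h3 := h2 _ hP
  rwa [Matrix.toLin'_toMatrix'] at h3

/-- All conclusions at one prime. -/
theorem conclusions_local (hN : 0 < N) (ρ : Γ →* Matrix (Fin N) (Fin N) ℚ_[ℓ]) (hρ : Continuous ρ)
    (E : IntermediateField ℚ (AlgebraicClosure ℚ)) (hfin : FiniteDimensional ℚ E) (n : ℕ)
    (hn : 0 < n) (ε : E →+* Matrix (Fin N) (Fin N) ℚ_[ℓ])
    (hε : ∀ (a : E) (γ : Γ), ε a * ρ γ = ρ γ * ε a)
    (htr : ∀ a : E, (ε a).trace = (n : ℚ_[ℓ]) * ((Algebra.trace ℚ E a : ℚ) : ℚ_[ℓ]))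
    (J : Matrix (Fin N) (Fin N) ℚ_[ℓ]) (hJ : Jᵀ = J ∨ Jᵀ = -J) (hdet : J.det ≠ 0)
    {χ : Γ →* ℚ_[ℓ]} (hχ : ∀ g, (ρ g)ᵀ * J * ρ g = χ g • J) (bar : E →+* E)
    (hbar1 : ∀ a, bar (bar a) = a) (hbar : ∃ a, bar a ≠ a)
    (hεJ : ∀ a, (ε a)ᵀ * J = J * ε (bar a)) (hgood : GoodEnd ℓ E ρ ε)
    (τ : Γ) (c : ℚ_[ℓ]) (hτ : χ τ = c) (hsep : (ρ τ).charpoly.Separable)
    (hgen : Generic (ρ τ).charpoly c)
    {F : Γ} {q : ℚ} (hq : χ F = (q : ℚ_[ℓ])) {Q : Polynomial E} (hdeg : 3 ≤ Q.natDegree)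
    (hQ : ∀ (τ : E →+* AlgebraicClosure ℚ_[ℓ])
      (h : ∀ u ∈ Eu (AlgebraicClosure ℚ_[ℓ]) (opOf ε) τ,
        bcr (repOf ρ) (AlgebraicClosure ℚ_[ℓ]) F u ∈ Eu (AlgebraicClosure ℚ_[ℓ]) (opOf ε) τ),
      charpolyOn (bcr (repOf ρ) (AlgebraicClosure ℚ_[ℓ]) F)
        (Eu (AlgebraicClosure ℚ_[ℓ]) (opOf ε) τ) h = Q.map τ)
    [NumberField E]
    (hnon : NondegenerateDet ℂ bar (q : ℂ) (Q.coeff 0)) :
    (∀ X : Matrix (Fin N) (Fin N) ℚ_[ℓ], (∀ a, X * ε a = ε a * X) → Xᵀ * J + J * X = 0 →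
      (∀ a, (X * ε a).trace = 0) → IsTangent ℓ ρ X) ∧
    FiniteIndexSemisimple (repOf ρ) ∧
    (∀ Δ : Subgroup Γ, Δ.FiniteIndex → ∀ A : Module.End ℚ_[ℓ] (Fin N → ℚ_[ℓ]),
      (∀ g ∈ Δ, A * repOf ρ g = repOf ρ g * A) →
      A ∈ Submodule.span ℚ_[ℓ] (Set.range (opOf ε))) ∧
    (∀ (j : ℕ) (φ : MultilinearMap ℚ_[ℓ] (fun _ : Fin j × Fin 2 => Fin N → ℚ_[ℓ]) ℚ_[ℓ])
      (Δ : Subgroup Γ), Δ.FiniteIndex →
      (∀ g ∈ Δ, ∀ v, φ (fun l => repOf ρ g (v l)) = χ g ^ j * φ v) →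
      φ ∈ Submodule.span ℚ_[ℓ] (GraphProductsE (formOf J) (opOf ε) j)) ∧
    (∀ (j : ℕ) (φ : MultilinearMap ℚ_[ℓ] (fun _ : Fin j => Fin N → ℚ_[ℓ]) ℚ_[ℓ]) (ψ : Γ → ℚ_[ℓ])
      (Δ : Subgroup Γ), Odd j → Δ.FiniteIndex → (∀ g ∈ Δ, ψ g ^ 2 = χ g) →
      (∀ g ∈ Δ, ∀ v, φ (fun l => repOf ρ g (v l)) = ψ g ^ j * φ v) → φ = 0) := by
  have hc : c ≠ 0 := by
    rw [← hτ]
    exact Pool.Agent.W522.U.χne τ
  have hfull := full_local ρ hρ E hfin n hn ε hε htr J hJ hdet (fun g => ⟨χ g, hχ g⟩) bar hbar hεJ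
    hgood τ c hc (by rw [← hτ]; exact hχ τ) hsep hgen
  have hspan := (Pool.Agent.Y154.SU.t_COEF ℓ N n E hfin hn ε htr).2.2.1
  obtain ⟨hss, hend⟩ := of_goodEnd ρ hρ E ε hgood
  have hform : ∀ u v, formOf J u v = u ⬝ᵥ J *ᵥ v := fun u v => formOf_apply J u v
  have hsym : (∀ u v, formOf J u v = formOf J v u) ∨ ∀ u v, formOf J u v = -formOf J v u := by
    have h1 : ∀ u v : Fin N → ℚ_[ℓ], u ⬝ᵥ J *ᵥ v = v ⬝ᵥ Jᵀ *ᵥ u := by
      intro u v
      rw [Matrix.mulVec_transpose, Matrix.dotProduct_mulVec, dotProduct_comm]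
    rcases hJ with h | h
    · left
      intro u v
      rw [hform, hform, h1, h]
    · right
      intro u v
      rw [hform, hform, h1, h, Matrix.neg_mulVec, dotProduct_neg]
  have hmain := main_unitary (Ω := AlgebraicClosure ℚ_[ℓ]) (ρ := repOf ρ) (χ := χ)
    (ε := opOf ε) (ω := formOf J) (bar := bar)
    (fun u hu => form_nondeg hdet u hu) hsym
    (fun g u v => by
      rw [repOf_apply, repOf_apply]
      exact form_sim (hχ g) u v)
    (fun a g => by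
      change Matrix.toLin' (ε a) ∘ₗ Matrix.toLin' (ρ g) = Matrix.toLin' (ρ g) ∘ₗ Matrix.toLin' (ε a)
      rw [← Matrix.toLin'_mul, ← Matrix.toLin'_mul, hε])
    hbar1 hbar
    (fun a u v => by
      rw [opOf_apply, opOf_apply, hform, hform, ← Matrix.vecMul_transpose,
        ← Matrix.dotProduct_mulVec, Matrix.mulVec_mulVec, Matrix.mulVec_mulVec, hεJ])
    hss (fun Δ hΔ P hP => mem_span_op ε (hend Δ hΔ P hP))
    (fun X hX => kill_local hN ρ hρ E hfin n hn ε htr J hJ hdet hχ bar hbar hεJ hfull X hX)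
    (F := F) (q := (q : AlgebraicClosure ℚ_[ℓ]))
    (by rw [bcc_apply, hq, map_ratCast]) hdeg hQ (nondeg_of_complex ℓ hnon)
  exact ⟨fun X h1 h2 h3 => hfull X (suLie_of ε hspan h1 h2 h3), hss,
    fun Δ hΔ A hA => mem_span_op ε (hend Δ hΔ A hA), hmain.1, hmain.2⟩

end

end Pool.Agent.Helper8K9.UD
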