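import Mathlib
import Pool.Agent.Helper8K9.CY.Concl

/-!
# The eigenspaces of a field of operators
-/

set_option autoImplicit false
set_option linter.unusedSectionVars false

namespace Pool.Agent.Helper8K9.UD

open Module TensorProduct Polynomial
open Pool.Agent.H204R3.SP Pool.Agent.H204R3.GP Pool.Agent.W522.U Pool.Agent.TH118.CR
open Pool.Agent.TH118.WC
open Pool.Agent.Helper8K9.CR Pool.Agent.Helper8K9.CY

noncomputable section

variable {k V : Type} [Field k] [CharZero k] [AddCommGroup V] [Module k V]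
  [FiniteDimensional k V] (Ω : Type) [Field Ω] [CharZero Ω] [Algebra k Ω]
  {Γ : Type} [Group Γ] {ρ : Representation k Γ V} {χ : Γ →* k}
  {E : Type} [Field E] (ε : E →+* End k V)

/-- The eigenspace of the operators `ε a` over the extension, with the eigenvalues `τ a`. -/
def Eu (τ : E →+* Ω) : Submodule Ω (Ω ⊗[k] V) where
  carrier := {x | ∀ a, (ε a).baseChange Ω x = τ a • x}
  zero_mem' := fun a => by rw [map_zero, smul_zero]
  add_mem' := fun {x y} hx hy a => by rw [map_add, hx a, hy a, smul_add]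
  smul_mem' := fun c x hx a => by rw [map_smul, hx a, smul_comm]

variable {Ω ε}

theorem mem_Eu {τ : E →+* Ω} {x : Ω ⊗[k] V} :
    x ∈ Eu Ω ε τ ↔ ∀ a, (ε a).baseChange Ω x = τ a • x := Iff.rfl

theorem Eu_stable (hc : ∀ a s, ε a * ρ s = ρ s * ε a) (τ : E →+* Ω) (s : Γ) :
    ∀ u ∈ Eu Ω ε τ, bcr ρ Ω s u ∈ Eu Ω ε τ := by
  intro u hu a
  have h1 : (ε a).baseChange Ω (bcr ρ Ω s u) = bcr ρ Ω s ((ε a).baseChange Ω u) := by
    change ((ε a).baseChange Ω ∘ₗ (ρ s).baseChange Ω) u =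
      ((ρ s).baseChange Ω ∘ₗ (ε a).baseChange Ω) u
    rw [← LinearMap.baseChange_comp, ← LinearMap.baseChange_comp]
    congr 2
    exact hc a s
  rw [h1, hu a, map_smul]

theorem eps_aeval [CharZero E] (θ : E) (p : ℚ[X]) :
    ε (aeval θ p) = aeval (ε θ) (p.map (algebraMap ℚ k)) := by
  rw [aeval_def, aeval_def, hom_eval₂, eval₂_map]
  congr 1
  exact RingHom.ext_rat _ _

theorem eig_le_Eu [CharZero E] {θ : E} (hθ : ∀ a : E, ∃ p : ℚ[X], aeval θ p = a) (τ : E →+* Ω) :
    End.eigenspace ((ε θ).baseChange Ω) (τ θ) ≤ Eu Ω ε τ := by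
  intro x hx a
  obtain ⟨p, rfl⟩ := hθ a
  rw [eps_aeval, aeval_eigen Ω (ε θ) _ (τ θ) (End.mem_eigenspace_iff.1 hx)]
  congr 1
  rw [aeval_def, eval₂_map, aeval_def, hom_eval₂]
  congr 1
  exact RingHom.ext_rat _ _

theorem exists_gen (E : Type) [Field E] [NumberField E] :
    ∃ θ : E, ∀ a : E, ∃ p : ℚ[X], aeval θ p = a := by
  refine ⟨(Field.powerBasisOfFiniteOfSeparable ℚ E).gen, fun a => ?_⟩
  obtain ⟨p, -, hp⟩ := (Field.powerBasisOfFiniteOfSeparable ℚ E).exists_eq_aeval a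
  exact ⟨p, hp.symm⟩

/-- The space is the sum of the eigenspaces. -/
theorem iSup_Eu [NumberField E] [IsAlgClosed Ω] : ⨆ τ : E →+* Ω, Eu Ω ε τ = ⊤ := by
  classical
  obtain ⟨θ, hθ⟩ := exists_gen E
  rw [eq_top_iff]
  intro x _
  set f : ℚ[X] := minpoly ℚ θ with hf
  have hint : IsIntegral ℚ θ := Algebra.IsIntegral.isIntegral θ
  have hsep : (f.map (algebraMap ℚ Ω)).Separable := (minpoly.irreducible hint).separable.map
  have hprod : f.map (algebraMap ℚ Ω) = ∏ a ∈ (f.map (algebraMap ℚ Ω)).roots.toFinset,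
      (Polynomial.X - C a) := by
    have h1 := (IsAlgClosed.splits (f.map (algebraMap ℚ Ω))).eq_prod_roots
    have h2 : (f.map (algebraMap ℚ Ω)).leadingCoeff = 1 :=
      ((minpoly.monic hint).map _).leadingCoeff
    rw [h2, C_1, one_mul] at h1
    conv_lhs => rw [h1]
    rw [Finset.prod_multiset_map_count]
    refine Finset.prod_congr rfl fun a ha => ?_
    rw [Multiset.count_eq_one_of_mem (nodup_roots hsep) (Multiset.mem_toFinset.1 ha), pow_one]
  have h1 : aeval ((ε θ).baseChange Ω) (f.map (algebraMap ℚ Ω)) x = 0 := by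
    have h2 : f.map (algebraMap ℚ Ω) = (f.map (algebraMap ℚ k)).map (algebraMap k Ω) := by
      rw [Polynomial.map_map]
      congr 1
      exact RingHom.ext_rat _ _
    have h3 : aeval (ε θ) (f.map (algebraMap ℚ k)) = 0 := by
      rw [← eps_aeval, hf, minpoly.aeval, map_zero]
    rw [h2, aeval_baseChange, h3, LinearMap.baseChange_zero, LinearMap.zero_apply]
  rw [hprod] at h1
  have h2 := mem_iSup_eigenspace _ _ _ h1
  refine (iSup₂_le fun z hz => ?_ : (⨆ z ∈ (f.map (algebraMap ℚ Ω)).roots.toFinset,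
    End.eigenspace ((ε θ).baseChange Ω) z) ≤ _) h2
  have hz' : aeval z f = 0 := by
    have h3 := (mem_roots'.1 (Multiset.mem_toFinset.1 hz)).2
    rw [IsRoot.def, eval_map] at h3
    exact h3
  have h4 : ∃ τ : E →ₐ[ℚ] Ω, τ θ = z := by
    let pb := Field.powerBasisOfFiniteOfSeparable ℚ E
    have htop : IntermediateField.adjoin ℚ {θ} = ⊤ := by
      rw [eq_top_iff]
      intro a _
      obtain ⟨p, rfl⟩ := hθ a
      have h5 : θ ∈ (IntermediateField.adjoin ℚ {θ}).toSubalgebra :=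
        IntermediateField.mem_adjoin_simple_self ℚ θ
      have h6 : aeval θ p ∈ (IntermediateField.adjoin ℚ {θ}).toSubalgebra := by
        rw [aeval_eq_sum_range]
        exact Subalgebra.sum_mem _ fun i _ => Subalgebra.smul_mem _ (Subalgebra.pow_mem _ h5 _) _
      exact h6
    have hroot : z ∈ (minpoly ℚ θ).aroots Ω := by
      rw [mem_aroots]
      exact ⟨minpoly.ne_zero hint, hz'⟩
    let φ := (IntermediateField.algHomAdjoinIntegralEquiv ℚ hint).symm ⟨z, hroot⟩
    have hφ : φ (IntermediateField.AdjoinSimple.gen ℚ θ) = z := by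
      have := IntermediateField.algHomAdjoinIntegralEquiv_symm_apply_gen ℚ hint ⟨z, hroot⟩
      exact this
    let e : E ≃ₐ[ℚ] IntermediateField.adjoin ℚ {θ} :=
      (IntermediateField.topEquiv.symm).trans (IntermediateField.equivOfEq htop.symm)
    refine ⟨φ.comp e.toAlgHom, ?_⟩
    have he : e θ = IntermediateField.AdjoinSimple.gen ℚ θ := Subtype.ext rfl
    change φ (e θ) = z
    rw [he, hφ]
  obtain ⟨τ, hτ⟩ := h4
  rw [← hτ]
  exact (eig_le_Eu hθ τ.toRingHom).trans (le_iSup (fun τ : E →+* Ω => Eu Ω ε τ) τ.toRingHom)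

/-- Operators that commute with a subgroup act on the eigenspaces as scalars. -/
theorem comm_scalarE {Δ : Subgroup Γ}
    (hend : ∀ P : End k V, (∀ s ∈ Δ, P * ρ s = ρ s * P) → P ∈ Submodule.span k (Set.range ε))
    (P : End Ω (Ω ⊗[k] V)) (hP : ∀ s ∈ Δ, ∀ x, P (bcr ρ Ω s x) = bcr ρ Ω s (P x)) (τ : E →+* Ω) :
    ∃ c : Ω, ∀ x ∈ Eu Ω ε τ, P x = c • x := by
  classical
  let e := Basis.ofVectorSpace k Ω
  obtain ⟨s, hs⟩ := comp_sum Ω e P
  have h0 : ∀ A ∈ Submodule.span k (Set.range ε), ∃ c : Ω, ∀ x ∈ Eu Ω ε τ,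
      A.baseChange Ω x = c • x := by
    intro A hA
    induction hA using Submodule.span_induction with
    | mem A hA =>
      obtain ⟨a, rfl⟩ := hA
      exact ⟨τ a, fun x hx => hx a⟩
    | zero => exact ⟨0, fun x _ => by rw [LinearMap.baseChange_zero, LinearMap.zero_apply, zero_smul]⟩
    | add A B _ _ hA hB =>
      obtain ⟨c, hc⟩ := hA
      obtain ⟨d, hd⟩ := hB
      exact ⟨c + d, fun x hx => by
        rw [LinearMap.baseChange_add, LinearMap.add_apply, hc x hx, hd x hx, add_smul]⟩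
    | smul r A _ hA =>
      obtain ⟨c, hc⟩ := hA
      exact ⟨r • c, fun x hx => by
        rw [LinearMap.baseChange_smul, LinearMap.smul_apply, hc x hx, smul_assoc]⟩
  choose c hc using fun i => h0 (comp Ω e P i)
    (hend (comp Ω e P i) fun g hg => comp_comm Ω ρ e P g (hP g hg) i)
  refine ⟨∑ i ∈ s, e i * c i, fun x hx => ?_⟩
  rw [hs, Finset.sum_smul]
  refine Finset.sum_congr rfl fun i _ => ?_
  rw [hc i x hx, smul_smul]

/-- The eigenspaces are strongly irreducible. -/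
theorem Eu_SI (hss : HasProj (bcr ρ Ω)) (hc : ∀ a s, ε a * ρ s = ρ s * ε a)
    (hend : ∀ Δ : Subgroup Γ, Δ.FiniteIndex → ∀ P : End k V, (∀ s ∈ Δ, P * ρ s = ρ s * P) →
      P ∈ Submodule.span k (Set.range ε)) {τ : E →+* Ω} (hne : Eu Ω ε τ ≠ ⊥) :
    SI (bcr ρ Ω) (Eu Ω ε τ) := by
  refine ⟨hne, ⟨⊤, inferInstance, fun g _ => Eu_stable hc τ g⟩, fun W hW hpot => ?_⟩
  obtain ⟨Δ, hΔ, hst⟩ := hpot
  obtain ⟨P, hP1, hP2, hP3⟩ := hss Δ hΔ W hst
  obtain ⟨c, hcx⟩ := comm_scalarE (hend Δ hΔ) P (fun s hs x => hP3 s hs x) τ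
  by_cases h0 : W = ⊥
  · exact Or.inl h0
  · right
    obtain ⟨w, hw, hw0⟩ := Submodule.exists_mem_ne_zero_of_ne_bot h0
    have h1 := hcx w (hW hw)
    rw [hP2 w hw] at h1
    have hc1 : c = 1 := smul_one_eq hw0 h1
    refine le_antisymm hW fun u hu => ?_
    have h2 := hcx u hu
    rw [hc1, one_smul] at h2
    rw [← h2]
    exact hP1 u

/-! ### the form -/

section form

variable {ω : V →ₗ[k] V →ₗ[k] k} {bar : E →+* E}

theorem adj_ext (hadj : ∀ a u v, ω (ε a u) v = ω u (ε (bar a) v)) (a : E) (x y : Ω ⊗[k] V) :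
    bcb Ω ω ((ε a).baseChange Ω x) y = bcb Ω ω x ((ε (bar a)).baseChange Ω y) := by
  induction x with
  | zero => simp only [map_zero, LinearMap.zero_apply]
  | add x x' hx hx' => simp only [map_add, LinearMap.add_apply, hx, hx']
  | tmul a x =>
    induction y with
    | zero => simp only [map_zero]
    | add y y' hy hy' => simp only [map_add, hy, hy']
    | tmul b y =>
      rw [LinearMap.baseChange_tmul, LinearMap.baseChange_tmul, bcb_tmul, bcb_tmul, hadj]

/-- The form pairs the eigenspaces for conjugate embeddings only. -/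
theorem orthE (hadj : ∀ a u v, ω (ε a u) v = ω u (ε (bar a) v)) {τ τ' : E →+* Ω}
    (h : τ ≠ τ'.comp bar) {x y : Ω ⊗[k] V} (hx : x ∈ Eu Ω ε τ) (hy : y ∈ Eu Ω ε τ') :
    bcb Ω ω x y = 0 := by
  have h0 : ∃ a, τ a ≠ τ' (bar a) := by
    by_contra hcon
    push Not at hcon
    exact h (RingHom.ext hcon)
  obtain ⟨a, ha⟩ := h0
  have h1 := adj_ext (Ω := Ω) hadj a x y
  rw [hx a, hy (bar a), map_smul, map_smul, LinearMap.smul_apply, smul_eq_mul, smul_eq_mul] at h1
  have h4 : (τ a - τ' (bar a)) * bcb Ω ω x y = 0 := by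
    rw [sub_mul, h1, sub_self]
  exact (mul_eq_zero.1 h4).resolve_left (sub_ne_zero.2 ha)

/-- A vector orthogonal to the conjugate eigenspace is zero. -/
theorem eq_zero_of_orthE [NumberField E] [IsAlgClosed Ω] (hbar : ∀ a, bar (bar a) = a)
    (hadj : ∀ a u v, ω (ε a u) v = ω u (ε (bar a) v))
    (hl : ∀ u, (∀ v, bcb Ω ω u v = 0) → u = 0) {τ : E →+* Ω} {u : Ω ⊗[k] V} (hu : u ∈ Eu Ω ε τ)
    (h : ∀ v ∈ Eu Ω ε (τ.comp bar), bcb Ω ω u v = 0) : u = 0 := by
  apply hl
  intro v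
  have hv : v ∈ (⨆ τ : E →+* Ω, Eu Ω ε τ) := by
    rw [iSup_Eu]
    trivial
  refine Submodule.iSup_induction _ (motive := fun v => bcb Ω ω u v = 0) hv
    (fun τ' v hv => ?_) (map_zero _) (fun x y hx hy => by rw [map_add, hx, hy, add_zero])
  by_cases hs : τ = τ'.comp bar
  · have h1 : τ' = τ.comp bar := by
      rw [hs]
      ext a
      simp [hbar]
    rw [h1] at hv
    exact h v hv
  · exact orthE hadj hs hu hv

end form

end

end Pool.Agent.Helper8K9.UD
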