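import Mathlib
import Pool.Agent.Helper8K9.UD.Eu

/-!
# Operators that kill all Tate forms, over the ground field and over an extension
-/

set_option autoImplicit false
set_option linter.unusedSectionVars false

namespace Pool.Agent.Helper8K9.UD

open Module TensorProduct Polynomial
open Pool.Agent.H204R3.SP Pool.Agent.H204R3.GP Pool.Agent.W522.U Pool.Agent.TH118.CR
open Pool.Agent.TH118.WC
open Pool.Agent.Helper8K9.CR Pool.Agent.Helper8K9.CY

noncomputable section

variable {k V : Type} [Field k] [CharZero k] [AddCommGroup V] [Module k V]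
  [FiniteDimensional k V] {Ω : Type} [Field Ω] [CharZero Ω] [Algebra k Ω]
  {Γ : Type} [Group Γ] {ρ : Representation k Γ V} {χ : Γ →* k}

/-- An operator that kills all Tate forms over the ground field does so over an extension. -/
theorem lieT_bc {X : End k V} (hX : X ∈ lieT ρ χ) :
    X.baseChange Ω ∈ lieT (bcr ρ Ω) (bcc χ Ω) := by
  classical
  intro m Φ hΦ v
  obtain ⟨Δ, hΔ, hΦ⟩ := hΦ
  let e := Basis.ofVectorSpace k Ω
  let b := finBasis k V
  -- the components of the form
  let φ : Basis.ofVectorSpaceIndex k Ω → MultilinearMap k (fun _ : Fin m × Fin 2 => V) k := fun i =>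
    { toFun := fun v => e.coord i (Φ (fun l => (1 : Ω) ⊗ₜ[k] v l))
      map_update_add' := by
        intro hd v l x y
        have h1 : ∀ z : V, (fun l' => (1 : Ω) ⊗ₜ[k] Function.update v l z l') =
            Function.update (fun l' => (1 : Ω) ⊗ₜ[k] v l') l ((1 : Ω) ⊗ₜ[k] z) := by
          intro z
          funext l'
          by_cases h : l' = l
          · subst h
            rw [Function.update_self, Function.update_self]
          · rw [Function.update_of_ne h, Function.update_of_ne h]
        rw [h1, h1, h1, tmul_add, MultilinearMap.map_update_add, map_add]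
      map_update_smul' := by
        intro hd v l c x
        have h1 : ∀ z : V, (fun l' => (1 : Ω) ⊗ₜ[k] Function.update v l z l') =
            Function.update (fun l' => (1 : Ω) ⊗ₜ[k] v l') l ((1 : Ω) ⊗ₜ[k] z) := by
          intro z
          funext l'
          by_cases h : l' = l
          · subst h
            rw [Function.update_self, Function.update_self]
          · rw [Function.update_of_ne h, Function.update_of_ne h]
        rw [h1, h1]
        have h2 : (1 : Ω) ⊗ₜ[k] (c • x) = (algebraMap k Ω c) • ((1 : Ω) ⊗ₜ[k] x) := by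
          rw [tmul_smul, algebraMap_smul]
        rw [h2, MultilinearMap.map_update_smul, algebraMap_smul, map_smul] }
  have hφa : ∀ i v, φ i v = e.coord i (Φ (fun l => (1 : Ω) ⊗ₜ[k] v l)) := fun _ _ => rfl
  have hφ : ∀ i, IsTate ρ χ m (φ i) := by
    intro i
    refine ⟨Δ, hΔ, fun s hs v => ?_⟩
    have h1 := hΦ s hs (fun l => (1 : Ω) ⊗ₜ[k] v l)
    simp only [bcr_tmul] at h1
    rw [hφa, hφa, h1, bcc_apply, ← map_pow, ← Algebra.smul_def, map_smul, smul_eq_mul]
  -- the sum is multilinear
  let Ψ : MultilinearMap Ω (fun _ : Fin m × Fin 2 => Ω ⊗[k] V) Ω :=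
    ∑ l, Φ.compLinearMap (Function.update (fun _ => LinearMap.id) l (X.baseChange Ω))
  have hΨ : ∀ v, Ψ v = ∑ l, Φ (Function.update v l (X.baseChange Ω (v l))) := by
    intro v
    change (∑ l, Φ.compLinearMap (Function.update (fun _ => LinearMap.id) l
      (X.baseChange Ω))) v = _
    rw [_root_.sum_apply]
    refine Finset.sum_congr rfl fun l _ => ?_
    rw [MultilinearMap.compLinearMap_apply]
    congr 1
    funext l'
    by_cases h : l' = l
    · subst h
      rw [Function.update_self, Function.update_self]
    · rw [Function.update_of_ne h, Function.update_of_ne h]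
      rfl
  rw [← hΨ]
  have h0 : Ψ = 0 := by
    refine Basis.ext_multilinear (fun _ => b.baseChange Ω) fun I => ?_
    rw [hΨ, _root_.zero_apply, ← e.repr.map_eq_zero_iff]
    ext i
    have h1 := hX m (φ i) (hφ i) (fun l => b (I l))
    rw [Finsupp.zero_apply]
    change e.coord i _ = 0
    rw [map_sum, ← h1]
    refine Finset.sum_congr rfl fun l _ => ?_
    rw [hφa]
    congr 2
    funext l'
    by_cases h : l' = l
    · subst h
      rw [Function.update_self, Function.update_self, Basis.baseChange_apply,
        LinearMap.baseChange_tmul]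
    · rw [Function.update_of_ne h, Function.update_of_ne h, Basis.baseChange_apply]
  rw [h0, _root_.zero_apply]

variable {E : Type} [Field E] {ε : E →+* End k V} {ω : V →ₗ[k] V →ₗ[k] k}

/-- The operators commuting with the field, skew for the form, whose traces over the field vanish. -/
def InSU (ω : V →ₗ[k] V →ₗ[k] k) (ε : E →+* End k V) (X : End k V) : Prop :=
  (∀ a, X * ε a = ε a * X) ∧ (∀ u v, ω (X u) v + ω u (X v) = 0) ∧
    ∀ a, LinearMap.trace k V (X * ε a) = 0

theorem coo_form {I : Type} (e : Basis I k Ω) (i : I) (x : Ω ⊗[k] V) (v : V) :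
    ω (coo Ω e i x) v = e.coord i (bcb Ω ω x ((1 : Ω) ⊗ₜ[k] v)) := by
  induction x with
  | zero => simp only [map_zero, LinearMap.zero_apply]
  | add x y hx hy => simp only [map_add, LinearMap.add_apply, hx, hy]
  | tmul a x =>
    rw [coo_tmul, bcb_tmul, map_smul, LinearMap.smul_apply, mul_one,
      map_smul, smul_eq_mul, smul_eq_mul, mul_comm]

theorem coo_form' {I : Type} (e : Basis I k Ω) (i : I) (x : Ω ⊗[k] V) (v : V) :
    ω v (coo Ω e i x) = e.coord i (bcb Ω ω ((1 : Ω) ⊗ₜ[k] v) x) := by
  induction x with
  | zero => simp only [map_zero]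
  | add x y hx hy => simp only [map_add, hx, hy]
  | tmul a x =>
    rw [coo_tmul, bcb_tmul, map_smul, one_mul,
      map_smul, smul_eq_mul, smul_eq_mul, mul_comm]

/-- The Lie algebra of trace zero over the extension kills the Tate forms. -/
theorem lieT_of_InSU (hkill : ∀ X : End k V, InSU ω ε X → X ∈ lieT ρ χ)
    {N : End Ω (Ω ⊗[k] V)} (h1 : ∀ a x, N ((ε a).baseChange Ω x) = (ε a).baseChange Ω (N x))
    (h2 : ∀ x y, bcb Ω ω (N x) y + bcb Ω ω x (N y) = 0)
    (h3 : ∀ a, LinearMap.trace Ω (Ω ⊗[k] V) (N * (ε a).baseChange Ω) = 0) :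
    N ∈ lieT (bcr ρ Ω) (bcc χ Ω) := by
  classical
  let e := Basis.ofVectorSpace k Ω
  obtain ⟨s, hs⟩ := comp_sum Ω e N
  have hN : N = ∑ i ∈ s, e i • (comp Ω e N i).baseChange Ω := by
    ext x
    simp only [hs, TensorProduct.AlgebraTensorModule.curry_apply, TensorProduct.curry_apply,
      LinearMap.sum_apply, LinearMap.smul_apply, LinearMap.coe_restrictScalars]
  have hli := e.linearIndependent
  have hc : ∀ i ∈ s, InSU ω ε (comp Ω e N i) := by
    intro i hi
    refine ⟨fun a => ?_, fun u v => ?_, fun a => ?_⟩
    · ext v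
      rw [End.mul_apply, End.mul_apply, comp_apply, comp_apply]
      have h4 := h1 a ((1 : Ω) ⊗ₜ[k] v)
      rw [LinearMap.baseChange_tmul] at h4
      rw [h4]
      exact coo_map Ω e i (ε a) _
    · rw [comp_apply, comp_apply, coo_form, coo_form', ← map_add, h2, map_zero]
    · have h4 : ∑ i ∈ s, (LinearMap.trace k V (comp Ω e N i * ε a)) • e i = 0 := by
        rw [← h3 a]
        have h5 : N * (ε a).baseChange Ω =
            ∑ i ∈ s, e i • (comp Ω e N i * ε a).baseChange Ω := by
          conv_lhs => rw [hN]
          rw [Finset.sum_mul]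
          refine Finset.sum_congr rfl fun i _ => ?_
          rw [smul_mul_assoc]
          congr 1
          exact (LinearMap.baseChange_comp _ _).symm
        rw [h5, map_sum]
        refine Finset.sum_congr rfl fun i _ => ?_
        rw [map_smul, LinearMap.trace_baseChange, smul_eq_mul, mul_comm, ← Algebra.smul_def]
      exact linearIndependent_iff'.1 hli s _ h4 i hi
  rw [hN]
  exact Submodule.sum_mem _ fun i hi => Submodule.smul_mem _ _ (lieT_bc (hkill _ (hc i hi)))

end

end Pool.Agent.Helper8K9.UD
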