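import Mathlib
import Pool.Agent.Helper8K9.CY.Concl

/-!
# Operators that kill all Tate forms commute with twisted isomorphisms up to scalars
-/

set_option autoImplicit false
set_option linter.unusedSectionVars false

namespace Pool.Agent.Helper8K9.UD

open Module
open Pool.Agent.H204R3.SP Pool.Agent.H204R3.GP Pool.Agent.W522.U Pool.Agent.TH118.CR
open Pool.Agent.TH118.WC

noncomputable section

variable {K : Type} [Field K] [CharZero K] {X : Type} [AddCommGroup X] [Module K X]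
  [FiniteDimensional K X] {Γ : Type} [Group Γ] {R : Representation K Γ X} {χ : Γ →* K}

theorem twist_comm (ω : X →ₗ[K] X →ₗ[K] K) (hnd : ∀ u, (∀ v, ω u v = 0) → u = 0)
    (hωR : ∀ g u v, ω (R g u) (R g v) = χ g * ω u v) (hss : HasProj R) {U U' : Submodule K X}
    (hU : SI R U) (hU' : SI R U') {Δ : Subgroup Γ} (hΔ : Δ.FiniteIndex) {T : X →ₗ[K] X}
    (hTU : ∀ u ∈ U, T u ∈ U') (h0 : ∃ u ∈ U, T u ≠ 0) {ψ : Γ → K}
    (hT : ∀ g ∈ Δ, ∀ u ∈ U, T (R g u) = ψ g • R g (T u)) {Y : End K X} (hY : Y ∈ lieT R χ) :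
    ∃ c : K, ∀ a ∈ U, T (Y a) - Y (T a) = c • T a := by
  classical
  obtain ⟨e, he⟩ := tw_equiv hU hU' hΔ hTU h0 hT
  obtain ⟨p0, hp0⟩ := exists_pr U'
  let S : X →ₗ[K] X := U.subtype.comp (e.symm.toLinearMap.comp p0)
  have hS : ∀ u ∈ U, S (T u) = u := by
    intro u hu
    have h2 : p0 (T u) = e ⟨u, hu⟩ := by
      rw [← he ⟨u, hu⟩]
      exact hp0 _
    change ((e.symm (p0 (T u)) : U) : X) = u
    rw [h2, e.symm_apply_apply]
  have hTS : ∀ v ∈ U', T (S v) = v := by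
    intro v hv
    have h2 : p0 v = ⟨v, hv⟩ := hp0 ⟨v, hv⟩
    change T ((e.symm (p0 v) : U) : X) = v
    rw [← he, h2, e.apply_symm_apply]
  have hSU : ∀ v, S v ∈ U := fun v => SetLike.coe_mem _
  have hYU := lieT_stable ω hnd hωR hss hU.2.1 hY
  have hYU' := lieT_stable ω hnd hωR hss hU'.2.1 hY
  obtain ⟨D, hD, hDU⟩ := hU.2.1
  obtain ⟨D', hD', hDU'⟩ := hU'.2.1
  obtain ⟨p, hp1, hp2, hp3⟩ := hss ((Δ ⊓ D) ⊓ D') inferInstance U fun g hg => hDU g hg.1.2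
  obtain ⟨p', hp1', hp2', hp3'⟩ := hss ((Δ ⊓ D) ⊓ D') inferInstance U' fun g hg => hDU' g hg.2
  have hSR : ∀ g ∈ (Δ ⊓ D) ⊓ D', ∀ v ∈ U', S (R g v) = (ψ g)⁻¹ • R g (S v) := by
    intro g hg v hv
    have hψ0 : ψ g ≠ 0 := tw_ne hU hΔ h0 hT hg.1.1 (hDU g hg.1.2)
    have h1 : R g v = (ψ g)⁻¹ • T (R g (S v)) := by
      rw [hT g hg.1.1 _ (hSU _), hTS _ hv, smul_smul, inv_mul_cancel₀ hψ0, one_smul]
    rw [h1, map_smul, hS _ (hDU g hg.1.2 _ (hSU _))]
  let B1 : X →ₗ[K] X →ₗ[K] K := ω.comp (T.comp p)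
  let B2 : X →ₗ[K] X →ₗ[K] K := ω.comp (S.comp p')
  let Φ : MultilinearMap K (fun _ : Fin 2 × Fin 2 => X) K := mmG (Equiv.refl _) ![B1, B2]
  have hΦ : ∀ v, Φ v = ω (T (p (v (0, 0)))) (v (0, 1)) * ω (S (p' (v (1, 0)))) (v (1, 1)) := by
    intro v
    change mmG (Equiv.refl _) ![B1, B2] v = _
    rw [mmG_apply, Fin.prod_univ_two]
    rfl
  have hΦT : IsTate R χ 2 Φ := by
    refine ⟨(Δ ⊓ D) ⊓ D', inferInstance, fun g hg v => ?_⟩
    have hψ0 : ψ g ≠ 0 := tw_ne hU hΔ h0 hT hg.1.1 (hDU g hg.1.2)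
    rw [hΦ, hΦ, hp3 g hg, hp3' g hg, hT g hg.1.1 _ (hp1 _), hSR g hg _ (hp1' _), map_smul,
      map_smul, LinearMap.smul_apply, LinearMap.smul_apply, hωR, hωR, smul_eq_mul, smul_eq_mul]
    field_simp
  have hsk : ∀ u w, ω u (Y w) = -ω (Y u) w := fun u w =>
    eq_neg_of_add_eq_zero_right (lieT_sp R χ ω hωR hY u w)
  have key : ∀ a ∈ U, ∀ c ∈ U', ∀ b d,
      ω (T (Y a) - Y (T a)) b * ω (S c) d + ω (T a) b * ω (S (Y c) - Y (S c)) d = 0 := by
    intro a ha c hc b d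
    have h := hY 2 Φ hΦT (fun k => ![![a, b], ![c, d]] k.1 k.2)
    rw [Fintype.sum_prod_type, Fin.sum_univ_two, Fin.sum_univ_two, Fin.sum_univ_two] at h
    simp only [hΦ, Function.update_apply, Prod.mk.injEq, Matrix.cons_val_zero,
      Matrix.cons_val_one, zero_ne_one, one_ne_zero, and_true, and_false,
      if_true, if_false] at h
    rw [hp2 a ha, hp2 _ (hYU a ha), hp2' c hc, hp2' _ (hYU' c hc), hsk, hsk] at h
    simp only [map_sub, LinearMap.sub_apply]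
    linear_combination h
  obtain ⟨u0, hu0, hTu0⟩ := h0
  have hu00 : u0 ≠ 0 := by
    rintro rfl
    exact hTu0 (map_zero _)
  obtain ⟨d, hd⟩ : ∃ d, ω u0 d ≠ 0 := by
    by_contra hcon
    push Not at hcon
    exact hu00 (hnd u0 hcon)
  refine ⟨-(ω (S (Y (T u0)) - Y (S (T u0))) d / ω u0 d), fun a ha => ?_⟩
  rw [← sub_eq_zero]
  refine hnd _ fun b => ?_
  have h1 := key a ha (T u0) (hTU _ hu0) b d
  rw [hS u0 hu0] at h1
  rw [hS u0 hu0, map_sub, map_smul, LinearMap.sub_apply, LinearMap.smul_apply, smul_eq_mul]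
  field_simp
  linear_combination h1

/-- A common zero of two functionals. -/
theorem exists_zero2 {U : Submodule K X} (h3 : 3 ≤ finrank K U) (f g : X →ₗ[K] K) :
    ∃ u ∈ U, u ≠ 0 ∧ f u = 0 ∧ g u = 0 := by
  by_contra hcon
  push Not at hcon
  have hinj2 : Function.Injective (((f.comp U.subtype).prod (g.comp U.subtype)) :
      U →ₗ[K] K × K) := by
    rw [injective_iff_map_eq_zero]
    intro u hu
    by_contra h4
    have h5 : f u = 0 := congrArg Prod.fst hu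
    have h6 : g u = 0 := congrArg Prod.snd hu
    exact hcon u u.2 (fun h => h4 (Subtype.ext h)) h5 h6
  have h4 := LinearMap.finrank_le_finrank_of_injective hinj2
  rw [finrank_prod, finrank_self] at h4
  omega

end

end Pool.Agent.Helper8K9.UD
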