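import Mathlib
import Pool.Agent.Helper8K9.UD.Base
import Pool.Agent.Helper8K9.UD.Twc

/-!
# The representation over the algebraic closure
-/

set_option autoImplicit false
set_option linter.unusedSectionVars false

namespace Pool.Agent.Helper8K9.UD

open Module TensorProduct Polynomial
open Pool.Agent.H204R3.SP Pool.Agent.H204R3.GP Pool.Agent.W522.U Pool.Agent.TH118.CR
open Pool.Agent.TH118.WC
open Pool.Agent.Helper8K9.CR Pool.Agent.Helper8K9.CY

noncomputable section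

section nil

variable {K X : Type} [Field K] [AddCommGroup X] [Module K X]

/-- The rank two operator. -/
def nl (B : X →ₗ[K] X →ₗ[K] K) (s : K) (u y : X) : End K X :=
  (B y).smulRight u - s • (B u).smulRight y

theorem nl_apply (B : X →ₗ[K] X →ₗ[K] K) (s : K) (u y x : X) :
    nl B s u y x = B y x • u - (s * B u x) • y := by
  change B y x • u - s • (B u x • y) = _
  rw [smul_smul]

theorem nl_skew {B : X →ₗ[K] X →ₗ[K] K} {s : K} (hs : s * s = 1) (hB : ∀ x y, B x y = s * B y x)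
    (u y x z : X) : B (nl B s u y x) z + B x (nl B s u y z) = 0 := by
  rw [nl_apply, nl_apply]
  simp only [map_sub, map_smul, LinearMap.sub_apply, LinearMap.smul_apply, smul_eq_mul]
  rw [hB x u, hB x y]
  linear_combination (-(B u z) * B y x) * hs

theorem nl_trace_gen [FiniteDimensional K X] (B : X →ₗ[K] X →ₗ[K] K) (s : K) (u y : X)
    (A : End K X) :
    LinearMap.trace K X (nl B s u y * A) = B y (A u) - s * B u (A y) := by
  have h1 : nl B s u y * A = ((B y).comp A).smulRight u - s • ((B u).comp A).smulRight y := by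
    ext x
    rfl
  rw [h1, map_sub, map_smul, LinearMap.trace_smulRight, LinearMap.trace_smulRight]
  rfl

end nil

variable {k V : Type} [Field k] [CharZero k] [AddCommGroup V] [Module k V]
  [FiniteDimensional k V] {Ω : Type} [Field Ω] [CharZero Ω] [Algebra k Ω]
  {Γ : Type} [Group Γ] {ρ : Representation k Γ V} {χ : Γ →* k}
  {E : Type} [Field E] {ε : E →+* End k V} {ω : V →ₗ[k] V →ₗ[k] k} {bar : E →+* E}

theorem nl_comm (hbar : ∀ a, bar (bar a) = a)
    (hadj : ∀ a u v, ω (ε a u) v = ω u (ε (bar a) v)) {s : Ω} {τ : E →+* Ω} {u y : Ω ⊗[k] V}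
    (hu : u ∈ Eu Ω ε τ) (hy : y ∈ Eu Ω ε (τ.comp bar)) (a : E) (x : Ω ⊗[k] V) :
    nl (bcb Ω ω) s u y ((ε a).baseChange Ω x) = (ε a).baseChange Ω (nl (bcb Ω ω) s u y x) := by
  have h1 : bcb Ω ω y ((ε a).baseChange Ω x) = τ a * bcb Ω ω y x := by
    have h2 := adj_ext (Ω := Ω) hadj (bar a) y x
    rw [hbar] at h2
    rw [← h2, hy (bar a), map_smul, LinearMap.smul_apply, smul_eq_mul, RingHom.comp_apply, hbar]
  have h2 : bcb Ω ω u ((ε a).baseChange Ω x) = τ (bar a) * bcb Ω ω u x := by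
    have h2 := adj_ext (Ω := Ω) hadj (bar a) u x
    rw [hbar] at h2
    rw [← h2, hu (bar a), map_smul, LinearMap.smul_apply, smul_eq_mul]
  rw [nl_apply, nl_apply, h1, h2, map_sub, map_smul, map_smul, hu a, hy a, smul_smul, smul_smul,
    RingHom.comp_apply]
  congr 2 <;> ring

theorem nl_trace {s : Ω} {τ : E →+* Ω} {u y : Ω ⊗[k] V}
    (hu : u ∈ Eu Ω ε τ) (hy : y ∈ Eu Ω ε (τ.comp bar)) (huy : bcb Ω ω u y = 0)
    (hyu : bcb Ω ω y u = 0) (a : E) :
    LinearMap.trace Ω (Ω ⊗[k] V) (nl (bcb Ω ω) s u y * (ε a).baseChange Ω) = 0 := by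
  rw [nl_trace_gen, hu a, hy a, map_smul, map_smul, huy, hyu, smul_zero, smul_zero, mul_zero,
    sub_zero]

/-- The nilpotent elements of the Lie algebra. -/
theorem nl_mem (hkill : ∀ X : End k V, InSU ω ε X → X ∈ lieT ρ χ) (hbar : ∀ a, bar (bar a) = a)
    (hadj : ∀ a u v, ω (ε a u) v = ω u (ε (bar a) v)) {s : Ω} (hs : s * s = 1)
    (hB : ∀ x y, bcb Ω ω x y = s * bcb Ω ω y x) {τ : E →+* Ω} {u y : Ω ⊗[k] V}
    (hu : u ∈ Eu Ω ε τ) (hy : y ∈ Eu Ω ε (τ.comp bar)) (huy : bcb Ω ω u y = 0) :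
    nl (bcb Ω ω) s u y ∈ lieT (bcr ρ Ω) (bcc χ Ω) := by
  have hyu : bcb Ω ω y u = 0 := by rw [hB, huy, mul_zero]
  exact lieT_of_InSU hkill (nl_comm hbar hadj hu hy) (nl_skew hs hB u y) (nl_trace hu hy huy hyu)

variable [NumberField E]

theorem comp_bar_ne (hbar' : ∃ a, bar a ≠ a) (τ : E →+* Ω) : τ ≠ τ.comp bar := by
  intro h
  obtain ⟨a, ha⟩ := hbar'
  apply ha
  apply τ.injective
  exact (congrArg (fun f : E →+* Ω => f a) h).symm

theorem comp_bar_bar (hbar : ∀ a, bar (bar a) = a) (τ : E →+* Ω) :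
    (τ.comp bar).comp bar = τ := by
  ext a
  simp [hbar]

/-- The eigenspaces are not isomorphic, even up to a twist. -/
theorem Eu_sep [IsAlgClosed Ω] (hkill : ∀ X : End k V, InSU ω ε X → X ∈ lieT ρ χ)
    (hbar : ∀ a, bar (bar a) = a) (hbar' : ∃ a, bar a ≠ a)
    (hadj : ∀ a u v, ω (ε a u) v = ω u (ε (bar a) v)) {s : Ω} (hs : s * s = 1)
    (hB : ∀ x y, bcb Ω ω x y = s * bcb Ω ω y x)
    (hl : ∀ u, (∀ v, bcb Ω ω u v = 0) → u = 0)
    (hinv : ∀ g u v, bcb Ω ω (bcr ρ Ω g u) (bcr ρ Ω g v) = bcc χ Ω g * bcb Ω ω u v)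
    (hss : HasProj (bcr ρ Ω)) (hSI : ∀ τ, SI (bcr ρ Ω) (Eu Ω ε τ))
    (hdim : ∀ τ : E →+* Ω, 3 ≤ finrank Ω (Eu Ω ε τ)) {τ τ' : E →+* Ω} {ψ : Γ → Ω}
    (h : Tw (bcr ρ Ω) ψ (Eu Ω ε τ) (Eu Ω ε τ')) : τ = τ' := by
  by_contra hne
  obtain ⟨Δ, hΔ, T, hTU, h0, hT⟩ := h
  have hinj := tw_inj (hSI τ) hΔ h0 hT
  obtain ⟨u, hu, hTu⟩ := h0
  -- a functional
  obtain ⟨f, hf⟩ : ∃ f : (Ω ⊗[k] V) →ₗ[Ω] Ω, f (T u) ≠ 0 := by
    by_contra hcon
    push Not at hcon
    exact hTu ((Module.forall_dual_apply_eq_zero_iff Ω (T u)).1 hcon)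
  obtain ⟨y, hy, hy0, huy, hfy⟩ := exists_zero2 (hdim (τ.comp bar)) (bcb Ω ω u) f
  have hN := nl_mem hkill hbar hadj hs hB hu hy huy
  obtain ⟨c, hc⟩ := twist_comm (bcb Ω ω) hl hinv hss (hSI τ) (hSI τ') hΔ hTU ⟨u, hu, hTu⟩ hT hN
  -- the commutator
  have h1 : ∀ a ∈ Eu Ω ε τ, bcb Ω ω y a • T u + (s * bcb Ω ω u (T a)) • y = c • T a := by
    intro a ha
    rw [← hc a ha, nl_apply, nl_apply]
    have h2 : bcb Ω ω u a = 0 := orthE hadj (comp_bar_ne hbar' τ) hu ha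
    have h4 : bcb Ω ω y (T a) = 0 := by
      refine orthE hadj (fun h5 => hne ?_) hy (hTU a ha)
      have h6 := congrArg (fun f : E →+* Ω => f.comp bar) h5
      simp only [comp_bar_bar hbar] at h6
      exact h6
    rw [h2, h4, mul_zero, zero_smul, zero_smul, sub_zero, zero_sub, sub_neg_eq_add, map_smul]
  obtain ⟨a, ha, ha0, hya, hua⟩ := exists_zero2 (hdim τ) (bcb Ω ω y) ((bcb Ω ω u).comp T)
  have h2 := h1 a ha
  rw [LinearMap.comp_apply] at hua
  rw [hya, hua, mul_zero, zero_smul, zero_smul, add_zero] at h2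
  have hc0 : c = 0 := by
    rcases smul_eq_zero.1 h2.symm with h3 | h3
    · exact h3
    · exact absurd (hinj a ha h3) ha0
  -- a vector that pairs with `y`
  obtain ⟨b, hb, hyb⟩ : ∃ b ∈ Eu Ω ε τ, bcb Ω ω y b ≠ 0 := by
    by_contra hcon
    push Not at hcon
    refine hy0 (eq_zero_of_orthE hbar hadj hl hy fun v hv => ?_)
    rw [comp_bar_bar hbar] at hv
    exact hcon v hv
  have h3 := congrArg f (h1 b hb)
  rw [hc0, zero_smul, map_zero, map_add, map_smul, map_smul, hfy, smul_zero, add_zero,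
    smul_eq_mul] at h3
  exact mul_ne_zero hyb hf h3

end

end Pool.Agent.Helper8K9.UD
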