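import Mathlib
import Pool.Agent.Helper8K9.UD.Nilp

/-!
# The Tate forms over the algebraic closure
-/

set_option autoImplicit false
set_option linter.unusedSectionVars false

namespace Pool.Agent.Helper8K9.UD

open Module TensorProduct Polynomial
open Pool.Agent.H204R3.SP Pool.Agent.H204R3.GP Pool.Agent.W522.U Pool.Agent.TH118.CR
open Pool.Agent.TH118.WC
open Pool.Agent.Helper8K9.CR Pool.Agent.Helper8K9.CY

noncomputable section

section weil

variable {K X Γ : Type} [Field K] [CharZero K] [IsAlgClosed K] [AddCommGroup X] [Module K X]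
  [FiniteDimensional K X] [Group Γ] {R : Representation K Γ X} {χ : Γ →* K} {I : Type}
  {E : I → Submodule K X}

/-- There are no Weil families if the determinants of one element of the group satisfy no
nontrivial relations. -/
theorem noWeilI {nu : I → I} (hss : HasProj R) (hE : StronglyIrreducibleSum R E)
    (hst : ∀ t, ∀ g : Γ, ∀ u ∈ E t, R g u ∈ E t) (hdual : ∀ t, Du R χ (E t) (E (nu t))) (F : Γ)
    (hind : ∀ (N : ℕ), 0 < N → ∀ (c : ℕ) (Q : Type) [Fintype Q] [Nonempty Q] (i : Q → I),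
      (∏ q, LinearMap.det ((R F).restrict (hst (i q) F)) ^ N = χ F ^ (N * c)) →
      ∃ q q', i q' = nu (i q))
    (Q : Type) [Fintype Q] [Nonempty Q] (L : Q → Submodule K X) :
    ¬Pool.Agent.Y126.Notions.IsWeilFamily R χ L := by
  classical
  rintro ⟨hL1, hL2, c, Δ, h, hΔ, -, hdet⟩
  have h1 : ∀ q, SI R (L q) := hL1
  choose i hi using fun q => exists_iso hss hE (h1 q)
  choose D hD hD1 using fun q => det_transfer (h1 q) (hE.1 (i q)) (hi q)
  have hfin : (Δ ⊓ ⨅ q, D q).FiniteIndex := by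
    have h2 : (⨅ q, D q).FiniteIndex := Subgroup.finiteIndex_iInf hD
    infer_instance
  obtain ⟨N, hN, -, hFN⟩ := Subgroup.exists_pow_mem_of_index_ne_zero hfin.index_ne_zero F
  have h3 := hdet (F ^ N) hFN.1
  have h4 : ∀ q, LinearMap.det ((R (F ^ N)).restrict (h q (F ^ N) hFN.1)) =
      LinearMap.det ((R F).restrict (hst (i q) F)) ^ N := by
    intro q
    rw [hD1 q (F ^ N) ((Subgroup.mem_iInf.1 hFN.2) q) _ (hst (i q) (F ^ N)), det_pow_restrict]
  rw [Finset.prod_congr rfl fun q _ => h4 q, map_pow, ← pow_mul] at h3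
  obtain ⟨q, q', hqq⟩ := hind N hN c Q i h3
  apply hL2 q q'
  have h5 := hdual (i q)
  rw [← hqq] at h5
  have h6 : Du R χ (L q) (E (i q')) := Tw.du (hE.1 _) (h1 q) (hi q) h5
  exact (Tw.du (hE.1 _) (h1 q') (hi q') h6.symm).symm

end weil

section main

variable {k V : Type} [Field k] [CharZero k] [AddCommGroup V] [Module k V]
  [FiniteDimensional k V] {Ω : Type} [Field Ω] [CharZero Ω] [Algebra k Ω]
  {Γ : Type} [Group Γ] {ρ : Representation k Γ V} {χ : Γ →* k}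
  {E : Type} [Field E] [NumberField E] {ε : E →+* End k V} {ω : V →ₗ[k] V →ₗ[k] k} {bar : E →+* E}

/-- The multilinear forms. -/
theorem su_det [IsAlgClosed Ω] (hkill : ∀ X : End k V, InSU ω ε X → X ∈ lieT ρ χ)
    (hbar : ∀ a, bar (bar a) = a) (hbar' : ∃ a, bar a ≠ a)
    (hadj : ∀ a u v, ω (ε a u) v = ω u (ε (bar a) v)) {s : Ω} (hs : s * s = 1)
    (hB : ∀ x y, bcb Ω ω x y = s * bcb Ω ω y x)
    (hl : ∀ u, (∀ v, bcb Ω ω u v = 0) → u = 0)
    (hinv : ∀ g u v, bcb Ω ω (bcr ρ Ω g u) (bcr ρ Ω g v) = bcc χ Ω g * bcb Ω ω u v)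
    (hss : HasProj (bcr ρ Ω)) (hSI : ∀ τ, SI (bcr ρ Ω) (Eu Ω ε τ))
    (hdim : ∀ τ : E →+* Ω, 3 ≤ finrank Ω (Eu Ω ε τ)) {m : ℕ}
    (φ : MultilinearMap Ω (fun _ : Fin m × Fin 2 => Ω ⊗[k] V) Ω)
    (hφ : IsTate (bcr ρ Ω) (bcc χ Ω) m φ) :
    φ ∈ Submodule.span Ω (DetProd (bcr ρ Ω) (bcc χ Ω) m) := by
  have hE : StronglyIrreducibleSum (bcr ρ Ω) (fun τ : E →+* Ω => Eu Ω ε τ) :=
    ⟨hSI, hdim, iSup_Eu⟩
  have hN : ∀ τ : E →+* Ω, ∃ N ∈ lieT (bcr ρ Ω) (bcc χ Ω), N * N = 0 ∧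
      finrank Ω ((Eu Ω ε τ).map N) = 1 := by
    intro τ
    obtain ⟨u, hu, hu0⟩ := Submodule.exists_mem_ne_zero_of_ne_bot (hSI τ).1
    obtain ⟨y, hy, hy0, huy, -⟩ := exists_zero2 (hdim (τ.comp bar)) (bcb Ω ω u) 0
    have hyu : bcb Ω ω y u = 0 := by rw [hB, huy, mul_zero]
    have huu : ∀ x ∈ Eu Ω ε τ, bcb Ω ω u x = 0 := fun x hx =>
      orthE hadj (comp_bar_ne hbar' τ) hu hx
    have hyy : bcb Ω ω y y = 0 := orthE hadj (comp_bar_ne hbar' (τ.comp bar)) hy hy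
    refine ⟨nl (bcb Ω ω) s u y, nl_mem hkill hbar hadj hs hB hu hy huy, ?_, ?_⟩
    · apply LinearMap.ext
      intro x
      change nl (bcb Ω ω) s u y (nl (bcb Ω ω) s u y x) = 0
      have h1 : nl (bcb Ω ω) s u y u = 0 := by
        rw [nl_apply, hyu, huu u hu, mul_zero, zero_smul, zero_smul, sub_zero]
      have h2 : nl (bcb Ω ω) s u y y = 0 := by
        rw [nl_apply, hyy, huy, mul_zero, zero_smul, zero_smul, sub_zero]
      rw [nl_apply _ _ _ _ x, map_sub, map_smul, map_smul, h1, h2, smul_zero, smul_zero, sub_zero]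
    · obtain ⟨b, hb, hyb⟩ : ∃ b ∈ Eu Ω ε τ, bcb Ω ω y b ≠ 0 := by
        by_contra hcon
        push Not at hcon
        refine hy0 (eq_zero_of_orthE hbar hadj hl hy fun v hv => ?_)
        rw [comp_bar_bar hbar] at hv
        exact hcon v hv
      have hx : ∀ x ∈ Eu Ω ε τ, nl (bcb Ω ω) s u y x = bcb Ω ω y x • u := by
        intro x hx
        rw [nl_apply, huu x hx, mul_zero, zero_smul, sub_zero]
      have h1 : (Eu Ω ε τ).map (nl (bcb Ω ω) s u y) = Submodule.span Ω {u} := by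
        apply le_antisymm
        · rintro _ ⟨x, hx', rfl⟩
          rw [hx x hx']
          exact Submodule.smul_mem _ _ (Submodule.mem_span_singleton_self u)
        · rw [Submodule.span_singleton_le_iff_mem]
          refine ⟨(bcb Ω ω y b)⁻¹ • b, Submodule.smul_mem _ _ hb, ?_⟩
          rw [map_smul, hx b hb, smul_smul, inv_mul_cancel₀ hyb, one_smul]
      rw [h1, finrank_span_singleton hu0]
  have hsep : ∀ (τ τ' : E →+* Ω) (ψ : Γ → Ω), Tw (bcr ρ Ω) ψ (Eu Ω ε τ) (Eu Ω ε τ') → τ = τ' :=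
    fun τ τ' ψ h => Eu_sep hkill hbar hbar' hadj hs hB hl hinv hss hSI hdim h
  have hdimU : ∀ U, SI (bcr ρ Ω) U → 3 ≤ finrank Ω U := by
    intro U hU
    obtain ⟨i, Δ, hΔ, T, hTU, h0, hT⟩ := exists_iso hss hE hU
    obtain ⟨e, -⟩ := tw_equiv hU (hE.1 i) hΔ hTU h0 hT
    rw [e.finrank_eq]
    exact hdim i
  refine nil_det (bcb Ω ω) hl hinv ?_ hss ?_ ?_ φ hφ
  · intro U hU _
    obtain ⟨i, hi⟩ := exists_iso hss hE hU
    obtain ⟨N, hN1, hN2, hN3⟩ := hN i
    refine ⟨N, hN1, hN2, ?_⟩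
    rw [← rank_transfer (bcb Ω ω) hl hinv hss hU (hE.1 i) hi hN1]
    exact hN3
  · intro U hU h1
    have h3 := hdimU U hU
    omega
  · intro U U' hU hU' _ _ ψ hψ
    obtain ⟨i, hi⟩ := exists_iso hss hE hU
    obtain ⟨j, hj⟩ := exists_iso hss hE hU'
    have h3 := ((hi.symm1 hU (hE.1 i)).trans hU hψ).trans hU' hj
    have hij := hsep i j _ h3
    subst hij
    exact hi.trans1 (hE.1 i) (hj.symm1 hU' (hE.1 i))

theorem Eu_dual [IsAlgClosed Ω] (hbar : ∀ a, bar (bar a) = a)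
    (hadj : ∀ a u v, ω (ε a u) v = ω u (ε (bar a) v))
    (hl : ∀ u, (∀ v, bcb Ω ω u v = 0) → u = 0)
    (hinv : ∀ g u v, bcb Ω ω (bcr ρ Ω g u) (bcr ρ Ω g v) = bcc χ Ω g * bcb Ω ω u v)
    (hSI : ∀ τ, SI (bcr ρ Ω) (Eu Ω ε τ)) (τ : E →+* Ω) :
    Du (bcr ρ Ω) (bcc χ Ω) (Eu Ω ε τ) (Eu Ω ε (τ.comp bar)) := by
  refine ⟨⊤, inferInstance, bcb Ω ω, ?_, fun g _ u _ v _ => hinv g u v⟩
  by_contra hcon
  push Not at hcon
  obtain ⟨u, hu, hu0⟩ := Submodule.exists_mem_ne_zero_of_ne_bot (hSI τ).1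
  apply hu0
  exact eq_zero_of_orthE hbar hadj hl hu fun v hv => hcon u hu v hv

end main

section arith

variable {E Ω : Type} [Field E] [NumberField E] [Field Ω] [CharZero Ω] {bar : E →+* E}

/-- The determinant `D` is nondegenerate: its conjugates satisfy no relations, except for the
relations between conjugates that correspond to each other by the involution. -/
def NondegenerateDet (Ω : Type) [Field Ω] [CharZero Ω] {E : Type} [Field E] [NumberField E]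
    (bar : E →+* E) (q : Ω) (D : E) : Prop :=
  ∀ (w : (E →+* Ω) → ℤ) (r : ℤ), (∀ τ, w (τ.comp bar) = -w τ) →
    (∏ τ : E →+* Ω, τ D ^ w τ) = q ^ r → ∀ τ, w τ = 0

theorem prod_zpow_sum {F ι : Type} [Field F] {q : F} (hq : q ≠ 0) (s : Finset ι) (f : ι → ℤ) :
    ∏ i ∈ s, q ^ f i = q ^ ∑ i ∈ s, f i := by
  classical
  induction s using Finset.induction_on with
  | empty => simp
  | insert a s ha ih => rw [Finset.prod_insert ha, Finset.sum_insert ha, zpow_add₀ hq, ih]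

/-- The relations between the determinants. -/
theorem exists_conj_index (hbar : ∀ a, bar (bar a) = a) {q : Ω} (hq : q ≠ 0) {D : E} (hD : D ≠ 0)
    (hnon : NondegenerateDet Ω bar q D) {n : ℕ}
    (hdd : ∀ τ : E →+* Ω, τ D * τ (bar D) = q ^ n)
    (r N : ℕ) (hN : 0 < N) (c : ℕ) {P : Type} [Fintype P] [Nonempty P] (i : P → E →+* Ω)
    (h : ∏ p, ((-1) ^ r * i p D) ^ N = q ^ (N * c)) :
    ∃ p p', i p' = (i p).comp bar := by
  classical
  by_contra hcon
  push Not at hcon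
  -- multiplicities
  let a : (E →+* Ω) → ℤ := fun τ => ((Finset.univ.filter fun p => i p = τ).card : ℤ)
  have hτD : ∀ τ : E →+* Ω, τ D ≠ 0 := fun τ h => hD (by
    rwa [map_eq_zero] at h)
  have h1 : ∏ τ : E →+* Ω, τ D ^ (2 * (N : ℤ) * a τ) = q ^ (2 * ((N : ℤ) * c)) := by
    have h2 : ∏ p, (i p D) ^ (2 * N) = q ^ (2 * (N * c)) := by
      have h3 : (∏ p, ((-1) ^ r * i p D) ^ N) ^ 2 = (q ^ (N * c)) ^ 2 := by rw [h]
      rw [← Finset.prod_pow, ← pow_mul] at h3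
      rw [mul_comm 2 (N * c), ← h3]
      refine Finset.prod_congr rfl fun p _ => ?_
      have h4 : ((-1 : Ω) ^ r) ^ (N * 2) = 1 := by
        rw [← pow_mul, show r * (N * 2) = 2 * (r * N) by ring, pow_mul, neg_one_sq, one_pow]
      rw [← pow_mul, mul_pow, h4, one_mul, mul_comm 2 N]
    have h3 : ∏ p, (i p D) ^ (2 * N) = ∏ τ : E →+* Ω, τ D ^ (2 * (N : ℤ) * a τ) := by
      rw [← Finset.prod_fiberwise' Finset.univ i (fun τ : E →+* Ω => (τ D) ^ (2 * N))]
      refine Finset.prod_congr rfl fun τ _ => ?_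
      rw [Finset.prod_const, zpow_mul]
      change ((τ D) ^ (2 * N)) ^ _ = (τ D ^ (2 * (N : ℤ))) ^ ((Finset.univ.filter
        fun p => i p = τ).card : ℤ)
      rw [zpow_natCast]
      congr 1
      exact_mod_cast (zpow_natCast (τ D) (2 * N)).symm
    rw [← h3, h2]
    exact_mod_cast (zpow_natCast q (2 * (N * c))).symm
  -- the involution on embeddings
  let e : (E →+* Ω) ≃ (E →+* Ω) :=
    ⟨fun τ => τ.comp bar, fun τ => τ.comp bar, comp_bar_bar hbar, comp_bar_bar hbar⟩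
  have h2 : ∏ τ : E →+* Ω, τ D ^ (-(2 * (N : ℤ) * a (τ.comp bar))) =
      q ^ (2 * ((N : ℤ) * c) - n * ∑ τ : E →+* Ω, 2 * (N : ℤ) * a τ) := by
    have h3 : ∏ τ : E →+* Ω, τ D ^ (-(2 * (N : ℤ) * a (τ.comp bar))) =
        ∏ τ : E →+* Ω, (τ (bar D)) ^ (-(2 * (N : ℤ) * a τ)) := by
      rw [← Equiv.prod_comp e]
      refine Finset.prod_congr rfl fun τ _ => ?_
      change (τ.comp bar D) ^ (-(2 * (N : ℤ) * a ((τ.comp bar).comp bar))) = _
      rw [comp_bar_bar hbar]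
      rfl
    have h4 : ∀ τ : E →+* Ω, (τ (bar D)) ^ (-(2 * (N : ℤ) * a τ)) =
        τ D ^ (2 * (N : ℤ) * a τ) * q ^ (-((n : ℤ) * (2 * (N : ℤ) * a τ))) := by
      intro τ
      have h5 : τ (bar D) = (τ D)⁻¹ * q ^ (n : ℤ) := by
        rw [zpow_natCast, ← hdd τ, inv_mul_cancel_left₀ (hτD τ)]
      rw [h5, mul_zpow, inv_zpow', neg_neg, ← zpow_mul, mul_neg]
    rw [h3, Finset.prod_congr rfl fun τ _ => h4 τ, Finset.prod_mul_distrib, h1,
      prod_zpow_sum hq, ← zpow_add₀ hq, Finset.sum_neg_distrib, ← Finset.mul_sum,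
      sub_eq_add_neg]
  have h3 := hnon (fun τ => 2 * (N : ℤ) * a τ - 2 * (N : ℤ) * a (τ.comp bar)) _ (by
    intro τ
    rw [comp_bar_bar hbar]
    ring) (by
    rw [Finset.prod_congr rfl fun τ _ => show τ D ^ (2 * (N : ℤ) * a τ -
      2 * (N : ℤ) * a (τ.comp bar)) = τ D ^ (2 * (N : ℤ) * a τ) *
        τ D ^ (-(2 * (N : ℤ) * a (τ.comp bar))) by
      rw [sub_eq_add_neg, zpow_add₀ (hτD τ)], Finset.prod_mul_distrib, h1, h2, ← zpow_add₀ hq])
  obtain ⟨p⟩ := (inferInstance : Nonempty P)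
  have h4 := h3 (i p)
  have h5 : a (i p) = a ((i p).comp bar) := by
    have h6 : (2 * (N : ℤ)) ≠ 0 := by positivity
    have h7 : 2 * (N : ℤ) * a (i p) = 2 * (N : ℤ) * a ((i p).comp bar) := by linarith
    exact mul_left_cancel₀ h6 h7
  have h6 : a ((i p).comp bar) = 0 := by
    change (((Finset.univ.filter fun p' => i p' = (i p).comp bar).card : ℕ) : ℤ) = 0
    rw [Finset.filter_false_of_mem fun p' _ => hcon p p']
    rfl
  have h7 : 0 < a (i p) := by
    change (0 : ℤ) < (((Finset.univ.filter fun p' => i p' = i p).card : ℕ) : ℤ)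
    exact_mod_cast Finset.card_pos.2 ⟨p, by simp⟩
  rw [h5, h6] at h7
  exact lt_irrefl _ h7

end arith

end

end Pool.Agent.Helper8K9.UD
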