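import Mathlib
import Pool.Agent.Helper8K9.UD.Det

/-!
# Conclusions over the ground field
-/

set_option autoImplicit false
set_option linter.unusedSectionVars false

namespace Pool.Agent.Helper8K9.UD

open Module TensorProduct Polynomial
open Pool.Agent.H204R3.SP Pool.Agent.H204R3.GP Pool.Agent.W522.U Pool.Agent.TH118.CR
open Pool.Agent.TH118.WC
open Pool.Agent.Helper8K9.CR Pool.Agent.Helper8K9.CY

noncomputable section

/-- The products of the forms `ω(a x, y)`, `a` in the field `E`, in `2 n` variables. -/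
def GraphProductsE {k V : Type} [Field k] [AddCommGroup V] [Module k V] (ω : V →ₗ[k] V →ₗ[k] k)
    {E : Type} [Field E] (ε : E →+* End k V) (n : ℕ) :
    Set (MultilinearMap k (fun _ : Fin n × Fin 2 => V) k) :=
  {φ | ∃ (σ : Equiv.Perm (Fin n × Fin 2)) (a : Fin n → E),
    ∀ v, φ v = ∏ l, ω (ε (a l) (v (σ (l, 0)))) (v (σ (l, 1)))}

variable {k V : Type} [Field k] [CharZero k] [AddCommGroup V] [Module k V]
  [FiniteDimensional k V] {Γ : Type} [Group Γ] {ρ : Representation k Γ V} {χ : Γ →* k}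
  {E : Type} [Field E] [NumberField E] {ε : E →+* End k V} {ω : V →ₗ[k] V →ₗ[k] k} {bar : E →+* E}

/-- The forms in an even and in an odd number of variables. -/
theorem conclusionsE (hnd : ∀ u, (∀ v, ω v u = 0) → u = 0)
    (hω : ∀ s u v, ω (ρ s u) (ρ s v) = χ s * ω u v)
    (hbar : ∀ a, bar (bar a) = a) (hbar' : ∃ a, bar a ≠ a)
    (hend : ∀ Δ : Subgroup Γ, Δ.FiniteIndex → ∀ P : End k V, (∀ s ∈ Δ, P * ρ s = ρ s * P) →
      P ∈ Submodule.span k (Set.range ε))
    {Ω : Type} [Field Ω] [CharZero Ω] [Algebra k Ω] [IsAlgClosed Ω]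
    (hSI : ∀ τ : E →+* Ω, SI (bcr ρ Ω) (Eu Ω ε τ))
    (hsep : ∀ τ τ' : E →+* Ω, Tw (bcr ρ Ω) (fun _ => 1) (Eu Ω ε τ) (Eu Ω ε τ') → τ = τ')
    (hdual : ∀ τ : E →+* Ω, Du (bcr ρ Ω) (bcc χ Ω) (Eu Ω ε τ) (Eu Ω ε (τ.comp bar)))
    (hall : ∀ (j : ℕ) (φ : MultilinearMap Ω (fun _ : Fin j × Fin 2 => Ω ⊗[k] V) Ω),
      IsTate (bcr ρ Ω) (bcc χ Ω) j φ → φ ∈ Submodule.span Ω (PT (bcr ρ Ω) (bcc χ Ω) j)) :
    (∀ (j : ℕ) (φ : MultilinearMap k (fun _ : Fin j × Fin 2 => V) k) (Δ : Subgroup Γ),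
      Δ.FiniteIndex → (∀ s ∈ Δ, ∀ v, φ (fun l => ρ s (v l)) = χ s ^ j * φ v) →
      φ ∈ Submodule.span k (GraphProductsE ω ε j)) ∧
    (∀ (j : ℕ) (φ : MultilinearMap k (fun _ : Fin j => V) k) (ψ : Γ → k) (Δ : Subgroup Γ),
      Odd j → Δ.FiniteIndex → (∀ s ∈ Δ, ψ s ^ 2 = χ s) →
      (∀ s ∈ Δ, ∀ v, φ (fun l => ρ s (v l)) = ψ s ^ j * φ v) → φ = 0) := by
  classical
  refine ⟨?_, ?_⟩
  · intro j φ Δ hΔ hφ
    have h1 := tate_descent_any (Ω := Ω) (Module.finBasis k V) ρ χ (hall j) φ ⟨Δ, hΔ, hφ⟩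
    refine (Submodule.span_le.2 ?_) h1
    rintro _ ⟨σ, B, hB, rfl⟩
    let S : Set (V →ₗ[k] V →ₗ[k] k) := Set.range fun a : E => ω.comp (ε a)
    have h2 : ∀ l, B l ∈ Submodule.span k S := by
      intro l
      obtain ⟨Δ', hΔ', h'⟩ := hB l
      obtain ⟨A, hA, hBA⟩ := tate2_op hnd hω h'
      have h3 := hend Δ' hΔ' A hA
      have h4 : B l = ω.comp A := by
        ext u v
        exact hBA u v
      rw [h4]
      clear hA hBA h4
      induction h3 using Submodule.span_induction with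
      | mem A hA =>
        obtain ⟨a, rfl⟩ := hA
        exact Submodule.subset_span ⟨a, rfl⟩
      | zero =>
        rw [LinearMap.comp_zero]
        exact Submodule.zero_mem _
      | add A B _ _ hA hB =>
        rw [LinearMap.comp_add]
        exact Submodule.add_mem _ hA hB
      | smul c A _ hA =>
        rw [LinearMap.comp_smul]
        exact Submodule.smul_mem _ _ hA
    refine (Submodule.span_mono ?_) (mmG_mem_span σ S B h2)
    rintro _ ⟨B', hB', rfl⟩
    choose a ha using hB'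
    refine ⟨σ, a, fun v => ?_⟩
    rw [mmG_apply]
    refine Finset.prod_congr rfl fun l _ => ?_
    rw [← ha l]
    rfl
  · intro j φ ψ Δ hj hΔ hψ hφ
    obtain ⟨θ, hθ⟩ := exists_gen E
    let r : (E →+* Ω) ≃ Fin (Fintype.card (E →+* Ω)) := Fintype.equivFin _
    let H : (E →+* Ω) → Bool := fun τ => decide (r τ < r (τ.comp bar))
    have hinjθ : Function.Injective fun τ : E →+* Ω => τ θ := by
      intro τ τ' h
      apply RingHom.ext
      intro a
      obtain ⟨p, rfl⟩ := hθ a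
      have h1 : ∀ τ : E →+* Ω, τ (aeval θ p) = aeval (τ θ) p := by
        intro τ
        rw [aeval_def, hom_eval₂, aeval_def]
        congr 1
        exact RingHom.ext_rat _ _
      rw [h1, h1]
      exact congrArg (fun x => aeval x p) h
    let p : Polynomial Ω := Lagrange.interpolate Finset.univ (fun τ : E →+* Ω => τ θ)
      (fun τ => if H τ then (2 : Ω) else 2⁻¹)
    have hg : ∀ τ : E →+* Ω, ∀ u ∈ Eu Ω ε τ, aeval ((ε θ).baseChange Ω) p u =
        (if H τ then (2 : Ω) else 2⁻¹) • u := by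
      intro τ u hu
      have h1 : ∀ q : Polynomial Ω, aeval ((ε θ).baseChange Ω) q u = eval (τ θ) q • u := by
        intro q
        induction q using Polynomial.induction_on' with
        | add p q hp hq => rw [map_add, LinearMap.add_apply, hp, hq, eval_add, add_smul]
        | monomial n a =>
          have h2 : ∀ n : ℕ, ((ε θ).baseChange Ω ^ n) u = (τ θ) ^ n • u := by
            intro n
            induction n with
            | zero => rw [pow_zero, pow_zero, one_smul]; rfl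
            | succ n ih =>
              rw [pow_succ', End.mul_apply, ih, map_smul, hu θ, smul_smul, pow_succ]
          rw [aeval_monomial, ← Algebra.smul_def, LinearMap.smul_apply, h2, eval_monomial,
            smul_smul]
      rw [h1]
      congr 1
      exact Lagrange.eval_interpolate_at_node _ (fun s _ t _ h => hinjθ h) (Finset.mem_univ τ)
    have hH : ∀ τ : E →+* Ω, H (τ.comp bar) = !(H τ) := by
      intro τ
      have h1 : r τ ≠ r (τ.comp bar) := fun h => comp_bar_ne hbar' τ (r.injective h)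
      change decide (r (τ.comp bar) < r ((τ.comp bar).comp bar)) =
        !decide (r τ < r (τ.comp bar))
      rw [comp_bar_bar hbar, ← decide_not, decide_eq_decide, not_lt]
      exact ⟨fun h => h.le, fun h => lt_of_le_of_ne h (Ne.symm h1)⟩
    have hψ' : ∀ s ∈ Δ, (algebraMap k Ω (ψ s)) ^ 2 = bcc χ Ω s := by
      intro s hs
      rw [← map_pow, hψ s hs, bcc_apply]
    have h0 : bcm (Ω := Ω) (Module.finBasis k V) φ = 0 := by
      refine odd_vanish (E := fun τ : E →+* Ω => Eu Ω ε τ) (nu := fun τ => τ.comp bar) hSI iSup_Eu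
        hsep hdual hg hH hall hj hΔ hψ' fun s hs v => ?_
      have h1 := bcm_equiv (Ω := Ω) (Module.finBasis k V) φ s (ψ s ^ j) (hφ s hs) v
      rwa [map_pow] at h1
    ext v
    have h1 := bcm_one (Ω := Ω) (Module.finBasis k V) φ v
    rw [h0, _root_.zero_apply] at h1
    exact (algebraMap k Ω).injective (by rw [← h1, _root_.zero_apply, map_zero])

theorem det_dual {K X : Type} [Field K] [AddCommGroup X] [Module K X] [FiniteDimensional K X]
    {B : X →ₗ[K] X →ₗ[K] K} {U U' : Submodule K X}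
    (hinj : ∀ u ∈ U, (∀ v ∈ U', B u v = 0) → u = 0) (hfr : finrank K U = finrank K U')
    {g : End K X} (h1 : ∀ u ∈ U, g u ∈ U) (h2 : ∀ u ∈ U', g u ∈ U') {c : K}
    (hg : ∀ u v, B (g u) (g v) = c * B u v) :
    LinearMap.det (g.restrict h1) * LinearMap.det (g.restrict h2) = c ^ finrank K U := by
  let β : U →ₗ[K] Dual K U' := B.compl₁₂ U.subtype U'.subtype
  have hinjβ : Function.Injective β := by
    rw [injective_iff_map_eq_zero]
    intro u hu
    apply Subtype.ext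
    refine hinj u u.2 fun v hv => ?_
    exact congrArg (fun f : Dual K U' => f ⟨v, hv⟩) hu
  have hfr' : finrank K U = finrank K (Dual K U') := by
    rw [Subspace.dual_finrank_eq, hfr]
  have hbij : Function.Bijective β :=
    ⟨hinjβ, (LinearMap.injective_iff_surjective_of_finrank_eq_finrank hfr').1 hinjβ⟩
  exact det_pair β hbij (g.restrict h1) (g.restrict h2) c fun u v => hg u v

/-- The main theorem over a field, if the Lie algebra of the unitary group of trace zero kills the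
Tate forms. -/
theorem main_unitary (hnd : ∀ u, (∀ v, ω v u = 0) → u = 0)
    (hsym : (∀ u v, ω u v = ω v u) ∨ ∀ u v, ω u v = -ω v u)
    (hω : ∀ s u v, ω (ρ s u) (ρ s v) = χ s * ω u v)
    (hc : ∀ a s, ε a * ρ s = ρ s * ε a)
    (hbar : ∀ a, bar (bar a) = a) (hbar' : ∃ a, bar a ≠ a)
    (hadj : ∀ a u v, ω (ε a u) v = ω u (ε (bar a) v))
    (hss : FiniteIndexSemisimple ρ)
    (hend : ∀ Δ : Subgroup Γ, Δ.FiniteIndex → ∀ P : End k V, (∀ s ∈ Δ, P * ρ s = ρ s * P) →
      P ∈ Submodule.span k (Set.range ε))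
    (hkill : ∀ X : End k V, InSU ω ε X → X ∈ lieT ρ χ)
    {Ω : Type} [Field Ω] [CharZero Ω] [Algebra k Ω] [IsAlgClosed Ω] [Algebra.IsAlgebraic k Ω]
    {F : Γ} {q : Ω} (hq : bcc χ Ω F = q) {Q : Polynomial E} (hdeg : 3 ≤ Q.natDegree)
    (hQ : ∀ (τ : E →+* Ω) (h : ∀ u ∈ Eu Ω ε τ, bcr ρ Ω F u ∈ Eu Ω ε τ),
      charpolyOn (bcr ρ Ω F) (Eu Ω ε τ) h = Q.map τ)
    (hnon : NondegenerateDet Ω bar q (Q.coeff 0)) :
    (∀ (j : ℕ) (φ : MultilinearMap k (fun _ : Fin j × Fin 2 => V) k) (Δ : Subgroup Γ),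
      Δ.FiniteIndex → (∀ s ∈ Δ, ∀ v, φ (fun l => ρ s (v l)) = χ s ^ j * φ v) →
      φ ∈ Submodule.span k (GraphProductsE ω ε j)) ∧
    (∀ (j : ℕ) (φ : MultilinearMap k (fun _ : Fin j => V) k) (ψ : Γ → k) (Δ : Subgroup Γ),
      Odd j → Δ.FiniteIndex → (∀ s ∈ Δ, ψ s ^ 2 = χ s) →
      (∀ s ∈ Δ, ∀ v, φ (fun l => ρ s (v l)) = ψ s ^ j * φ v) → φ = 0) := by
  classical
  have hpr : HasProj (bcr ρ Ω) := hasProj_bcr ρ Ω hss
  have hst : ∀ τ : E →+* Ω, ∀ g : Γ, ∀ u ∈ Eu Ω ε τ, bcr ρ Ω g u ∈ Eu Ω ε τ :=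
    fun τ g => Eu_stable hc τ g
  have hrk : ∀ τ : E →+* Ω, finrank Ω (Eu Ω ε τ) = Q.natDegree := by
    intro τ
    have h1 := charpolyOn_natDegree (hst τ F)
    rw [← h1, hQ, natDegree_map]
  have hdim : ∀ τ : E →+* Ω, 3 ≤ finrank Ω (Eu Ω ε τ) := fun τ => by
    rw [hrk]
    exact hdeg
  have hSI : ∀ τ : E →+* Ω, SI (bcr ρ Ω) (Eu Ω ε τ) := by
    intro τ
    refine Eu_SI hpr hc hend fun h => ?_
    have h1 := hdim τ
    rw [h, finrank_bot] at h1
    omega
  have hnd' := nondeg_left ω hnd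
  have hl : ∀ u, (∀ v, bcb Ω ω u v = 0) → u = 0 := fun u hu => bcb_nondeg_left ω hnd hnd' u hu
  have hinv := bcb_inv (Ω := Ω) ρ χ ω hω
  -- the symmetry
  obtain ⟨s, hs, hB⟩ : ∃ s : Ω, s * s = 1 ∧ ∀ x y, bcb Ω ω x y = s * bcb Ω ω y x := by
    have hbc : ∀ s : k, (∀ u v, ω u v = s * ω v u) →
        ∀ x y, bcb Ω ω x y = algebraMap k Ω s * bcb Ω ω y x := by
      intro s hs x y
      induction x with
      | zero => simp only [map_zero, LinearMap.zero_apply, mul_zero]
      | add x x' hx hx' => simp only [map_add, LinearMap.add_apply, hx, hx', mul_add]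
      | tmul a x =>
        induction y with
        | zero => simp only [map_zero, LinearMap.zero_apply, mul_zero]
        | add y y' hy hy' => simp only [map_add, LinearMap.add_apply, hy, hy', mul_add]
        | tmul b y =>
          rw [bcb_tmul, bcb_tmul, hs x y, mul_comm a b, mul_smul, Algebra.smul_def]
    rcases hsym with h | h
    · refine ⟨1, by ring, fun x y => ?_⟩
      have h1 := hbc 1 (fun u v => by rw [one_mul]; exact h u v) x y
      rwa [map_one] at h1
    · refine ⟨-1, by ring, fun x y => ?_⟩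
      have h1 := hbc (-1) (fun u v => by rw [neg_one_mul]; exact h u v) x y
      rwa [map_neg, map_one] at h1
  have hdual := Eu_dual hbar hadj hl hinv hSI
  have hsep : ∀ (τ τ' : E →+* Ω) (ψ : Γ → Ω), Tw (bcr ρ Ω) ψ (Eu Ω ε τ) (Eu Ω ε τ') → τ = τ' :=
    fun τ τ' ψ h => Eu_sep hkill hbar hbar' hadj hs hB hl hinv hpr hSI hdim h
  have hE : StronglyIrreducibleSum (bcr ρ Ω) (fun τ : E →+* Ω => Eu Ω ε τ) :=
    ⟨hSI, hdim, iSup_Eu⟩
  have hq0 : q ≠ 0 := by
    rw [← hq]
    exact χne F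
  have hdet : ∀ τ : E →+* Ω, LinearMap.det (M := Eu Ω ε τ) ((bcr ρ Ω F).restrict (hst τ F)) =
      (-1) ^ Q.natDegree * τ (Q.coeff 0) := by
    intro τ
    rw [det_of_charpoly (hst τ F), hQ, hrk, coeff_map]
  have hdd : ∀ τ : E →+* Ω, τ (Q.coeff 0) * τ (bar (Q.coeff 0)) = q ^ Q.natDegree := by
    intro τ
    have h1 := det_dual (fun u hu h => eq_zero_of_orthE hbar hadj hl hu h)
      (by rw [hrk, hrk]) (hst τ F) (hst (τ.comp bar) F) (hinv F)
    rw [hdet, hdet, hrk, hq] at h1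
    rw [← h1]
    have h2 : ((-1 : Ω) ^ Q.natDegree) * (-1) ^ Q.natDegree = 1 := by
      rw [← mul_pow, neg_one_mul, neg_neg, one_pow]
    rw [RingHom.comp_apply]
    linear_combination (-(τ (Q.coeff 0) * τ (bar (Q.coeff 0)))) * h2
  have hD : Q.coeff 0 ≠ 0 := by
    intro h0
    obtain ⟨τ⟩ : Nonempty (E →+* Ω) := ⟨(IsAlgClosed.lift : E →ₐ[ℚ] Ω).toRingHom⟩
    have h1 := hdd τ
    rw [h0, map_zero, zero_mul] at h1
    exact pow_ne_zero _ hq0 h1.symm
  have hno : ∀ (P : Type) [Fintype P] [Nonempty P] (L : P → Submodule Ω (Ω ⊗[k] V)),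
      ¬Pool.Agent.Y126.Notions.IsWeilFamily (bcr ρ Ω) (bcc χ Ω) L := by
    intro P _ _ L
    refine noWeilI (nu := fun τ : E →+* Ω => τ.comp bar) hpr hE hst hdual F
      (fun M hM c P _ _ i h => ?_) P L
    refine exists_conj_index hbar hq0 hD hnon hdd Q.natDegree M hM c i ?_
    rw [Finset.prod_congr rfl fun p _ => by rw [hdet (i p)], hq] at h
    exact h
  exact conclusionsE hnd hω hbar hbar' hend hSI (fun τ τ' h => hsep τ τ' _ h) hdual
    fun j φ hφ => Pool.Agent.Y126.Toric.pt_of_noWeil hno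
      (su_det hkill hbar hbar' hadj hs hB hl hinv hpr hSI hdim φ hφ)

end

end Pool.Agent.Helper8K9.UD
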