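import Pool.Agent.Y142.SU.Top
import Pool.Agent.Y217.SU.Lieu
import Pool.Agent.Y405.SU.Perf
import Pool.Agent.Y246.SU.DCT
import Pool.Agent.Y154.SU.Coef
import Pool.Agent.Y708.ZO.Tan
import Pool.Agent.Y710.ZS.Tans
import Pool.Agent.Helper8K9.UD.RootU
import Pool.Agent.Helper8K9.UD.InvU
import Pool.Agent.Helper8K9.UD.Concl
import Pool.Agent.Helper8K9.CD.Top

/-!
# The Lie algebra of the image at one prime
-/

set_option autoImplicit false
set_option linter.unusedSectionVars false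

namespace Pool.Agent.Helper8K9.UD

open Module Matrix Polynomial Filter Topology NumberField IsDedekindDomain
open Pool.Agent.H204R3.SP Pool.Agent.H204R3.GP Pool.Agent.Helper8K9.CD
open Pool.Agent.Y142.ZO Pool.Agent.Y142.ZS Pool.Agent.Y142.SU Pool.Agent.Y142.SI

noncomputable section

/-- The operators of the coefficients. -/
def opOf {F : Type} [Field F] {N : ℕ} {E : Type} [Field E]
    (ε : E →+* Matrix (Fin N) (Fin N) F) : E →+* Module.End F (Fin N → F) :=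
  ((Matrix.toLinAlgEquiv' : Matrix (Fin N) (Fin N) F ≃ₐ[F] Module.End F (Fin N → F)) :
    Matrix (Fin N) (Fin N) F →+* Module.End F (Fin N → F)).comp ε

theorem opOf_eq {F : Type} [Field F] {N : ℕ} {E : Type} [Field E]
    (ε : E →+* Matrix (Fin N) (Fin N) F) (a : E) : opOf ε a = Matrix.toLin' (ε a) := rfl

theorem opOf_apply {F : Type} [Field F] {N : ℕ} {E : Type} [Field E]
    (ε : E →+* Matrix (Fin N) (Fin N) F) (a : E) (v : Fin N → F) : opOf ε a v = ε a *ᵥ v :=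
  Matrix.toLin'_apply _ _

variable {ℓ : ℕ} [Fact ℓ.Prime] {N : ℕ} {Γ : Type} [Group Γ] [TopologicalSpace Γ]
  [IsTopologicalGroup Γ] [CompactSpace Γ]

/-- The Lie algebra of the image contains the special unitary Lie algebra. -/
theorem full_local (ρ : Γ →* Matrix (Fin N) (Fin N) ℚ_[ℓ]) (hρ : Continuous ρ)
    (E : IntermediateField ℚ (AlgebraicClosure ℚ)) (hfin : FiniteDimensional ℚ E) (n : ℕ)
    (hn : 0 < n) (ε : E →+* Matrix (Fin N) (Fin N) ℚ_[ℓ])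
    (hε : ∀ (a : E) (γ : Γ), ε a * ρ γ = ρ γ * ε a)
    (htr : ∀ a : E, (ε a).trace = (n : ℚ_[ℓ]) * ((Algebra.trace ℚ E a : ℚ) : ℚ_[ℓ]))
    (J : Matrix (Fin N) (Fin N) ℚ_[ℓ]) (hJ : Jᵀ = J ∨ Jᵀ = -J) (hdet : J.det ≠ 0)
    (hsim : ∀ g, ∃ c : ℚ_[ℓ], Sim J (ρ g) c) (bar : E →+* E) (hbar : ∃ a, bar a ≠ a)
    (hεJ : ∀ a, (ε a)ᵀ * J = J * ε (bar a)) (hgood : GoodEnd ℓ E ρ ε)
    (τ : Γ) (c : ℚ_[ℓ]) (hc : c ≠ 0) (hτ : Sim J (ρ τ) c) (hsep : (ρ τ).charpoly.Separable)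
    (hgen : Generic (ρ τ).charpoly c) :
    ∀ X, SULie J (Algebra.adjoin ℚ_[ℓ] (Set.range ε)) X → IsTangent ℓ ρ X := by
  have hTAN : Pool.Agent.Y142.ZO.S_TAN := Pool.Agent.Y708.ZO.t
  have hTANS : Pool.Agent.Y142.ZS.S_TANS := Pool.Agent.Y710.ZS.t1
  have hDCT : S_DCT := Pool.Agent.Y246.SU.DCT.t
  have hLIEU : S_LIEU := Pool.Agent.Y217.SU.t t_rootu
  have hCOEF : S_COEF := Pool.Agent.Y154.SU.t_COEF
  obtain ⟨hcomm, hred, hspan, htrace⟩ := hCOEF ℓ N n E hfin hn ε htr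
  have hH := herm_of hJ hdet ε hcomm bar hbar hεJ
  obtain ⟨𝔤, h𝔤, hbr, hconj, -⟩ := hTAN ℓ N Γ ρ
  set 𝒞 := Algebra.adjoin ℚ_[ℓ] (Set.range ε) with h𝒞
  have hCρ : ∀ A ∈ 𝒞, ∀ γ, A * ρ γ = ρ γ * A := by
    intro A hA γ
    induction hA using Algebra.adjoin_induction with
    | mem x hx =>
      obtain ⟨a, rfl⟩ := hx
      exact hε a γ
    | algebraMap r => exact Algebra.commutes r _
    | add x y _ _ hx hy => rw [add_mul, mul_add, hx, hy]
    | mul x y _ _ hx hy => rw [mul_assoc, hy, ← mul_assoc, hx, mul_assoc]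
  have hdct := hDCT ℓ N Γ ρ hρ 𝒞 fun U hU =>
    ⟨fun X hX => Algebra.span_le_adjoin _ _ ((hgood U hU).1 X hX), (hgood U hU).2⟩
  have hset : {Y | IsTangent ℓ ρ Y} = (𝔤 : Set (Matrix (Fin N) (Fin N) ℚ_[ℓ])) := by
    ext Y
    exact (h𝔤 Y).symm
  rw [hset] at hdct
  have hinv : (ρ τ)⁻¹ = ρ τ⁻¹ := by
    apply Matrix.inv_eq_left_inv
    rw [← map_mul, inv_mul_cancel, map_one]
  intro X hX
  rw [← h𝔤]
  refine hLIEU ℓ N J (ρ τ) c 𝔤 𝒞 hH hc hτ hsep hgen ?_ hbr ?_ (fun A hA => hCρ A hA τ) ?_ hdct X hX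
  · intro Z hZ
    exact hTANS ℓ N Γ ρ J hdet hsim Z ((h𝔤 Z).1 hZ)
  · intro Z hZ
    rw [hinv]
    exact hconj τ Z hZ
  · intro A hA Z hZ
    exact comm_tangent (hCρ A hA) ((h𝔤 Z).1 hZ)

omit [IsTopologicalGroup Γ] [CompactSpace Γ] in
theorem chi_continuous {ρ : Γ →* Matrix (Fin N) (Fin N) ℚ_[ℓ]} (hρ : Continuous ρ)
    {J : Matrix (Fin N) (Fin N) ℚ_[ℓ]} (hJ : J ≠ 0) {χ : Γ →* ℚ_[ℓ]}
    (hχ : ∀ g, (ρ g)ᵀ * J * ρ g = χ g • J) : Continuous χ := by
  obtain ⟨i, j, hij⟩ : ∃ i j, J i j ≠ 0 := by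
    by_contra hcon
    push Not at hcon
    exact hJ (Matrix.ext hcon)
  have h1 : (χ : Γ → ℚ_[ℓ]) = fun g => ((ρ g)ᵀ * J * ρ g) i j / J i j := by
    funext g
    rw [hχ g, Matrix.smul_apply, smul_eq_mul, mul_div_cancel_right₀ _ hij]
  rw [h1]
  have h2 : Continuous fun g => (ρ g)ᵀ * J * ρ g :=
    ((hρ.matrix_transpose.mul continuous_const).mul hρ)
  exact ((h2.matrix_elem i j).div_const _)

/-- The elements of the special unitary Lie algebra kill all Tate forms. -/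
theorem kill_local (hN : 0 < N) (ρ : Γ →* Matrix (Fin N) (Fin N) ℚ_[ℓ]) (hρ : Continuous ρ)
    (E : IntermediateField ℚ (AlgebraicClosure ℚ)) (hfin : FiniteDimensional ℚ E) (n : ℕ)
    (hn : 0 < n) (ε : E →+* Matrix (Fin N) (Fin N) ℚ_[ℓ])
    (htr : ∀ a : E, (ε a).trace = (n : ℚ_[ℓ]) * ((Algebra.trace ℚ E a : ℚ) : ℚ_[ℓ]))
    (J : Matrix (Fin N) (Fin N) ℚ_[ℓ]) (hJ : Jᵀ = J ∨ Jᵀ = -J) (hdet : J.det ≠ 0)
    {χ : Γ →* ℚ_[ℓ]} (hχ : ∀ g, (ρ g)ᵀ * J * ρ g = χ g • J) (bar : E →+* E)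
    (hbar : ∃ a, bar a ≠ a) (hεJ : ∀ a, (ε a)ᵀ * J = J * ε (bar a))
    (hfull : ∀ X, SULie J (Algebra.adjoin ℚ_[ℓ] (Set.range ε)) X → IsTangent ℓ ρ X)
    (X : Module.End ℚ_[ℓ] (Fin N → ℚ_[ℓ])) (hX : InSU (formOf J) (opOf ε) X) :
    X ∈ lieT (repOf ρ) χ := by
  classical
  have hCOEF : S_COEF := Pool.Agent.Y154.SU.t_COEF
  obtain ⟨hcomm, hred, hspan, -⟩ := hCOEF ℓ N n E hfin hn ε htr
  have hH := herm_of hJ hdet ε hcomm bar hbar hεJ
  have hJ0 : J ≠ 0 := by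
    rintro rfl
    have : Nonempty (Fin N) := ⟨⟨0, hN⟩⟩
    rw [Matrix.det_zero] at hdet
    exact hdet rfl
  have hχc := chi_continuous hρ hJ0 hχ
  obtain ⟨hX1, hX2, hX3⟩ := hX
  -- the matrix
  set A := LinearMap.toMatrix' X with hA
  have hXA : X = Matrix.toLin' A := (Matrix.toLin'_toMatrix' X).symm
  have hAS : SULie J (Algebra.adjoin ℚ_[ℓ] (Set.range ε)) A := by
    refine suLie_of ε hspan (fun a => ?_) ?_ (fun a => ?_)
    · have h1 := congrArg LinearMap.toMatrix' (hX1 a)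
      rw [opOf_eq, Module.End.mul_eq_comp, Module.End.mul_eq_comp, LinearMap.toMatrix'_comp,
        LinearMap.toMatrix'_comp, LinearMap.toMatrix'_toLin'] at h1
      exact h1
    · ext i j
      have h1 := hX2 (Pi.single i 1) (Pi.single j 1)
      rw [formOf_apply, formOf_apply, hXA, Matrix.toLin'_apply, Matrix.toLin'_apply,
        ← Matrix.vecMul_transpose, ← Matrix.dotProduct_mulVec, Matrix.mulVec_mulVec,
        Matrix.mulVec_mulVec, ← dotProduct_add, ← Matrix.add_mulVec, Matrix.mulVec_single_one,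
        single_one_dotProduct] at h1
      rw [Matrix.zero_apply]
      exact h1
    · have h1 := hX3 a
      rw [opOf_eq, hXA, Module.End.mul_eq_comp, ← Matrix.toLin'_mul] at h1
      rw [← Matrix.trace_toLin'_eq] at *
      exact h1
  intro m φ hφ v
  obtain ⟨Δ, hΔ, hφ⟩ := hφ
  let e : Fin m × Fin 2 ≃ Fin (m * 2) := finProdFinEquiv
  let φ' : MultilinearMap ℚ_[ℓ] (fun _ : Fin (m * 2) => Fin N → ℚ_[ℓ]) ℚ_[ℓ] := φ.domDomCongr e
  have hφ' : ∀ w, φ' w = φ fun l => w (e l) := fun w => rfl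
  have hopen : IsOpen (Δ.topologicalClosure : Set Γ) := by
    have h1 : Δ.topologicalClosure.FiniteIndex :=
      Subgroup.finiteIndex_of_le Δ.le_topologicalClosure
    exact Subgroup.isOpen_of_isClosed_of_finiteIndex _ Δ.isClosed_topologicalClosure
  have hcl : ∀ w : Fin m × Fin 2 → Fin N → ℚ_[ℓ], ∀ σ ∈ Δ.topologicalClosure,
      φ (fun l => ρ σ *ᵥ w l) = χ σ ^ m * φ w := by
    intro w σ hσ
    have hc1 : Continuous fun σ : Γ => φ (fun l => ρ σ *ᵥ w l) := by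
      have h2 : Continuous fun σ : Γ => φ' (fun l => ρ σ *ᵥ w (e.symm l)) :=
        (Pool.Agent.Y155.ZI.cont_form φ').comp
          (continuous_pi fun l => Continuous.matrix_mulVec hρ continuous_const)
      have h3 : (fun σ : Γ => φ (fun l => ρ σ *ᵥ w l)) =
          fun σ : Γ => φ' (fun l => ρ σ *ᵥ w (e.symm l)) := by
        funext σ
        rw [hφ']
        congr 1
        funext l
        rw [Equiv.symm_apply_apply]
      rw [h3]
      exact h2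
    have hclosed : IsClosed {σ : Γ | φ (fun l => ρ σ *ᵥ w l) = χ σ ^ m * φ w} :=
      isClosed_eq hc1 ((hχc.pow m).mul continuous_const)
    have h1 : (Δ.topologicalClosure : Set Γ) ⊆
        {σ : Γ | φ (fun l => ρ σ *ᵥ w l) = χ σ ^ m * φ w} := by
      rw [Subgroup.topologicalClosure_coe]
      refine closure_minimal (fun s hs => ?_) hclosed
      have h2 := hφ s hs w
      simp only [repOf_apply] at h2
      exact h2
    exact h1 hσ
  have hinv := t_invu Pool.Agent.Y405.SU.t ℓ N Γ ρ hρ J (Algebra.adjoin ℚ_[ℓ] (Set.range ε)) hH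
    hred (fun g => ⟨χ g, hχ g⟩) hfull (m * 2) φ' Δ.topologicalClosure hopen
    (fun σ hσ h w => by
      have h1 : χ σ = 1 := by
        have h2 : (χ σ - 1) • J = 0 := by rw [sub_smul, one_smul, ← hχ σ, h, sub_self]
        exact sub_eq_zero.1 ((smul_eq_zero.1 h2).resolve_right hJ0)
      rw [hφ', hφ', hcl (fun l => w (e l)) σ hσ, h1, one_pow, one_mul]) A hAS
    (fun l => v (e.symm l))
  rw [← Equiv.sum_comp e] at hinv
  rw [← hinv]
  refine Finset.sum_congr rfl fun l _ => ?_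
  rw [hφ']
  congr 1
  funext l'
  by_cases h : l' = l
  · subst h
    rw [Function.update_self, Function.update_self, Equiv.symm_apply_apply, hXA,
      Matrix.toLin'_apply]
  · rw [Function.update_of_ne h, Function.update_of_ne (fun h' => h (e.injective h')),
      Equiv.symm_apply_apply]

end

end Pool.Agent.Helper8K9.UD
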